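import Pool.Agent.Y900.PV.One

/-!
# From monomials to linear families, uniformly in parameters
-/

set_option autoImplicit false

open Filter Topology

namespace Pool.Agent.Y900.PV

open Pool.Agent.Y124
open Pool.Agent.Y120 (NormRing Pt)

/-- few exceptional points in one variable for linear combinations of the functions `Φ w`, uniformly in the parameters -/
def LinP (g : ℕ) {P₀ Ω : Type} [Fintype Ω] (L : Set (P₀ × ℂ)) (Φ : Ω → P₀ → ℂ → ℂ) : Prop :=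
  ∀ (h : Type) [Fintype h] [DecidableEq h] (A ε : ℝ), 0 < ε → ∃ B C T2 : ℝ, 0 < C ∧ 2 ≤ T2 ∧
    ∀ T : ℝ, T2 ≤ T → ∀ R : Subring (Fin (g + 1) → ℂ), NormRing R → ∀ ξ : h → ℂ, ∀ (z : P₀) (Y : Finset ℂ),
      (∀ t ∈ Y, (z, t) ∈ L ∧ Pt R T t ∧ RelR R ξ (fun w : Ω => Φ w z t) (T ^ A) (T ^ (-B))) →
      (Y.card : ℝ) ≤ C * T ^ ε

theorem linP (g : ℕ) {P₀ : Type} [PseudoMetricSpace P₀] {κ Ω ρ : Type} [Fintype κ] [DecidableEq κ] [Fintype Ω]
    [Fintype ρ] [DecidableEq ρ] (f : κ → P₀ → ℂ → ℂ)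
    (L : Set (P₀ × ℂ)) (hL : IsCompact L) (han : ∀ i, ∀ x ∈ L, JA (f i) x)
    (hind : ∀ x ∈ L, LocInd (fun i => f i x.1) x.2) (Φ : Ω → P₀ → ℂ → ℂ) (kap : ρ → P₀ → ℂ) (W : ℕ)
    (b : Ω → ρ → (κ → Fin (W + 1)) → ℤ) (N : ℕ)
    (hΦ : ∀ w, ∀ x ∈ L, (N : ℂ) * Φ w x.1 x.2 =
      ∑ e : κ → Fin (W + 1), (∑ r, kap r x.1 * (b w r e : ℂ)) * ∏ i, f i x.1 x.2 ^ (e i : ℕ)) (Γ : ℝ) (hΓ0 : 0 ≤ Γ)
    (hΓ : ∀ x ∈ L, ∀ (a : Ω → ℂ) (M : ℝ), (∀ e, ‖∑ w, a w * ∑ r, kap r x.1 * (b w r e : ℂ)‖ ≤ M) → ∀ w, ‖a w‖ ≤ Γ * M) :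
    LinP g L Φ := by
  classical
  intro h _ _ A ε hε
  obtain ⟨B, C, T2, hC, hT2, H⟩ := oneP g f L hL han hind (h × ρ) W (A + 1) ε hε
  set Δ : ℝ := ∑ e : κ → Fin (W + 1), ∑ r, ∑ w, |(b w r e : ℝ)| with hΔ
  have hΔ0 : 0 ≤ Δ := Finset.sum_nonneg fun _ _ => Finset.sum_nonneg fun _ _ => Finset.sum_nonneg fun _ _ => abs_nonneg _
  refine ⟨B + 1, C, max T2 (N * Γ + Δ + 1), hC, hT2.trans (le_max_left _ _), ?_⟩
  intro T hT R hR ξ z Y hY
  have hT1 : T2 ≤ T := (le_max_left _ _).trans hT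
  have hT3 : N * Γ + Δ + 1 ≤ T := (le_max_right _ _).trans hT
  have hTp : 0 < T := by linarith
  refine H T hT1 R hR (fun q => ξ q.1 * kap q.2 z) z Y fun t ht => ?_
  obtain ⟨h1, h2, c, hcR, hcb, w₀, hw₀, hsm⟩ := hY t ht
  refine ⟨h1, h2, ?_⟩
  set a : Ω → ℂ := fun w => ∑ s, ξ s * c w s 0 with ha
  let c' : (κ → Fin (W + 1)) → h × ρ → (Fin (g + 1) → ℂ) := fun e q => ∑ w, b w q.2 e • c w q.1
  have hc'v : ∀ e q i, c' e q i = ∑ w, (b w q.2 e : ℂ) * c w q.1 i := by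
    intro e q i
    show (∑ w, b w q.2 e • c w q.1) i = _
    rw [Finset.sum_apply]
    refine Finset.sum_congr rfl fun w _ => ?_
    rw [Pi.smul_apply, zsmul_eq_mul]
  have hc'R : ∀ e q, c' e q ∈ R := fun e q => sum_mem fun w _ => zsmul_mem (hcR w q.1) _
  have ha' : ∀ e : κ → Fin (W + 1), ∑ q : h × ρ, (ξ q.1 * kap q.2 z) * c' e q 0 =
      ∑ w, a w * ∑ r, kap r z * (b w r e : ℂ) := by
    intro e
    have e1 : ∀ q : h × ρ, (ξ q.1 * kap q.2 z) * c' e q 0 =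
        ∑ w, (ξ q.1 * c w q.1 0) * (kap q.2 z * (b w q.2 e : ℂ)) := by
      intro q
      rw [hc'v, Finset.mul_sum]
      refine Finset.sum_congr rfl fun w _ => ?_
      ring
    rw [Finset.sum_congr rfl fun q _ => e1 q, Finset.sum_comm]
    refine Finset.sum_congr rfl fun w _ => ?_
    rw [Fintype.sum_prod_type]
    simp only [ha]
    rw [Finset.sum_mul]
    refine Finset.sum_congr rfl fun s _ => ?_
    rw [Finset.mul_sum]
  set a' : (κ → Fin (W + 1)) → ℂ := fun e => ∑ w, a w * ∑ r, kap r z * (b w r e : ℂ) with ha'def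
  obtain ⟨e₀, -, he₀⟩ := Finset.exists_max_image Finset.univ (fun e => ‖a' e‖)
    (⟨fun _ => 0, Finset.mem_univ _⟩ : (Finset.univ : Finset (κ → Fin (W + 1))).Nonempty)
  have hle : ‖a w₀‖ ≤ Γ * ‖a' e₀‖ := hΓ (z, t) h1 a _ (fun e => he₀ e (Finset.mem_univ _)) w₀
  have hne : a' e₀ ≠ 0 := by
    intro h0
    rw [h0, norm_zero, mul_zero] at hle
    exact hw₀ (norm_le_zero_iff.1 hle)
  have hval : ∑ e : κ → Fin (W + 1), a' e * ∏ i, f i z t ^ (e i : ℕ) = (N : ℂ) * ∑ w, a w * Φ w z t := by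
    have e1 : ∀ w, (N : ℂ) * (a w * Φ w z t) = ∑ e : κ → Fin (W + 1),
        a w * ((∑ r, kap r z * (b w r e : ℂ)) * ∏ i, f i z t ^ (e i : ℕ)) := by
      intro w
      rw [← Finset.mul_sum, ← hΦ w (z, t) h1]
      ring
    rw [Finset.mul_sum, Finset.sum_congr rfl fun w _ => e1 w, Finset.sum_comm]
    refine Finset.sum_congr rfl fun e _ => ?_
    rw [ha'def]
    simp only
    rw [Finset.sum_mul]
    refine Finset.sum_congr rfl fun w _ => ?_
    ring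
  refine ⟨c', hc'R, ?_, e₀, ?_, ?_⟩
  · intro e q i
    rw [hc'v]
    refine (norm_sum_le _ _).trans ?_
    calc ∑ w, ‖(b w q.2 e : ℂ) * c w q.1 i‖ ≤ ∑ w, T ^ A * |(b w q.2 e : ℝ)| := by
          refine Finset.sum_le_sum fun w _ => ?_
          rw [norm_mul, Complex.norm_intCast, mul_comm]
          exact mul_le_mul_of_nonneg_right (hcb w q.1 i) (abs_nonneg _)
      _ = T ^ A * ∑ w, |(b w q.2 e : ℝ)| := by rw [Finset.mul_sum]
      _ ≤ T ^ A * Δ := by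
          refine mul_le_mul_of_nonneg_left ?_ (Real.rpow_nonneg hTp.le _)
          rw [hΔ]
          have h6 := Finset.single_le_sum (f := fun e : κ → Fin (W + 1) => ∑ r, ∑ w, |(b w r e : ℝ)|)
            (fun e _ => Finset.sum_nonneg fun _ _ => Finset.sum_nonneg fun _ _ => abs_nonneg _) (Finset.mem_univ e)
          have h7 := Finset.single_le_sum (f := fun r => ∑ w, |(b w r e : ℝ)|)
            (fun r _ => Finset.sum_nonneg fun _ _ => abs_nonneg _) (Finset.mem_univ q.2)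
          exact h7.trans h6
      _ ≤ T ^ A * T := by
          refine mul_le_mul_of_nonneg_left ?_ (Real.rpow_nonneg hTp.le _)
          have : 0 ≤ N * Γ := by positivity
          linarith
      _ = T ^ (A + 1) := by rw [Real.rpow_add_one hTp.ne']
  · rw [ha']
    exact hne
  · have e5 : ∀ e : κ → Fin (W + 1), (∑ q : h × ρ, (ξ q.1 * kap q.2 z) * c' e q 0) * ∏ i, f i z t ^ (e i : ℕ) =
        a' e * ∏ i, f i z t ^ (e i : ℕ) := fun e => by rw [ha']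
    show ‖∑ e : κ → Fin (W + 1), (∑ q : h × ρ, (ξ q.1 * kap q.2 z) * c' e q 0) * ∏ i, f i z t ^ (e i : ℕ)‖ ≤
      T ^ (-B) * ‖∑ q : h × ρ, (ξ q.1 * kap q.2 z) * c' e₀ q 0‖
    rw [Finset.sum_congr rfl fun e _ => e5 e, ha', hval, norm_mul]
    have hsm' : ‖∑ w, a w * Φ w z t‖ ≤ T ^ (-(B + 1)) * ‖a w₀‖ := hsm
    calc ‖(N : ℂ)‖ * ‖∑ w, a w * Φ w z t‖ ≤ N * (T ^ (-(B + 1)) * (Γ * ‖a' e₀‖)) := by
          rw [Complex.norm_natCast]
          refine mul_le_mul_of_nonneg_left (hsm'.trans ?_) (Nat.cast_nonneg _)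
          exact mul_le_mul_of_nonneg_left hle (Real.rpow_nonneg hTp.le _)
      _ = (N * Γ) * (T ^ (-(B + 1)) * ‖a' e₀‖) := by ring
      _ ≤ T * (T ^ (-(B + 1)) * ‖a' e₀‖) := by
          refine mul_le_mul_of_nonneg_right ?_ (mul_nonneg (Real.rpow_nonneg hTp.le _) (norm_nonneg _))
          linarith
      _ = T ^ (-B) * ‖a' e₀‖ := by
          rw [← mul_assoc]
          congr 1
          have : (-B : ℝ) = 1 + (-(B + 1)) := by ring
          rw [this, Real.rpow_add hTp, Real.rpow_one]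

/-- gluing -/
theorem LinP.glue {g : ℕ} {P₀ Ω : Type} [Fintype Ω] {J : Type} [Fintype J] (Ls : J → Set (P₀ × ℂ))
    {Φ : Ω → P₀ → ℂ → ℂ} (h : ∀ j, LinP g (Ls j) Φ) {L : Set (P₀ × ℂ)} (hL : L ⊆ ⋃ j, Ls j) : LinP g L Φ := by
  classical
  intro h' _ _ A ε hε
  choose B C T2 hC hT2 H using fun j => h j h' A ε hε
  refine ⟨∑ j, |B j|, ∑ j, C j + 1, ∑ j, T2 j + 2, ?_, ?_, ?_⟩
  · have : 0 ≤ ∑ j, C j := Finset.sum_nonneg fun j _ => (hC j).le
    linarith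
  · have : 0 ≤ ∑ j, T2 j := Finset.sum_nonneg fun j _ => by linarith [hT2 j]
    linarith
  intro T hT R hR ξ z Y hY
  have hTj : ∀ j, T2 j ≤ T := by
    intro j
    have h1 := Finset.single_le_sum (f := T2) (fun j _ => by linarith [hT2 j]) (Finset.mem_univ j)
    linarith
  have hT0 : 0 ≤ ∑ j, T2 j := Finset.sum_nonneg fun j _ => by linarith [hT2 j]
  have hT1 : 1 ≤ T := by linarith
  have hTε : 0 ≤ T ^ ε := Real.rpow_nonneg (by linarith) _
  have hcov : Y ⊆ Finset.univ.biUnion fun j => Y.filter fun t => (z, t) ∈ Ls j := by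
    intro t ht
    obtain ⟨j, hj⟩ := Set.mem_iUnion.1 (hL (hY t ht).1)
    exact Finset.mem_biUnion.2 ⟨j, Finset.mem_univ _, Finset.mem_filter.2 ⟨ht, hj⟩⟩
  have hone : ∀ j, ((Y.filter fun t => (z, t) ∈ Ls j).card : ℝ) ≤ C j * T ^ ε := by
    intro j
    refine H j T (hTj j) R hR ξ z _ fun t ht => ?_
    rw [Finset.mem_filter] at ht
    obtain ⟨-, h2, c, hcR, hcb, w₀, hw₀, hsm⟩ := hY t ht.1
    refine ⟨ht.2, h2, c, hcR, hcb, w₀, hw₀, hsm.trans ?_⟩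
    refine mul_le_mul_of_nonneg_right ?_ (norm_nonneg _)
    refine Real.rpow_le_rpow_of_exponent_le hT1 (neg_le_neg ?_)
    exact (le_abs_self _).trans (Finset.single_le_sum (f := fun j => |B j|) (fun j _ => abs_nonneg _) (Finset.mem_univ j))
  calc (Y.card : ℝ) ≤ ∑ j, ((Y.filter fun t => (z, t) ∈ Ls j).card : ℝ) := by
        exact_mod_cast (Finset.card_le_card hcov).trans Finset.card_biUnion_le
    _ ≤ ∑ j, C j * T ^ ε := Finset.sum_le_sum fun j _ => hone j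
    _ = (∑ j, C j) * T ^ ε := by rw [Finset.sum_mul]
    _ ≤ (∑ j, C j + 1) * T ^ ε := by nlinarith

end Pool.Agent.Y900.PV
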