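import Pool.Agent.Y900.HY.Main
import Pool.Agent.Y900.PV.Lin

/-!
# Iterated primitives depending on parameters
-/

set_option autoImplicit false

open Filter Set NumberField
open scoped Topology

namespace Pool.Agent.Y900.PV

open Pool.Agent.Y900.HY
open H569R3.Hall
open Pool.Agent.Y119.UP (wd mem_wd)
open Pool.Agent.Y124 Pool.Agent.Y120

variable {κ : Type} [Fintype κ] [DecidableEq κ]

/-- the iterated primitives as polynomials in the functions attached to the Hall trees, with universal coefficients -/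
theorem iter_rep (W : ℕ) :
    ∃ (N : ℕ) (b : Wd κ W → Wd κ W → (YT κ W → Fin (W + 1)) → ℤ), 0 < N ∧
      ∀ (U : Set ℂ) (u : κ → ℂ → ℂ) (I : List κ → ℂ → ℂ) (p : ℂ), IsOpen U → IsPreconnected U → Iter U u I → p ∈ U →
        Good p u →
      (∀ (w : Wd κ W), ∀ t ∈ U, (N : ℂ) * I w.1 t =
        ∑ x : YT κ W → Fin (W + 1), (∑ v : Wd κ W, I v.1 p * ((b w v x : ℤ) : ℂ)) * ∏ y, FY (nrm I p) y t ^ (x y : ℕ)) ∧
      (∀ a : Wd κ W → ℂ, (∀ x, ∑ w, a w * ∑ v : Wd κ W, I v.1 p * ((b w v x : ℤ) : ℂ) = 0) → a = 0) := by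
  classical
  -- the coefficients
  have hβ : ∀ w : List κ, ∃ β : (YT κ W → Fin (W + 1)) → ℚ, w.length ≤ W →
      ∀ (U : Set ℂ) (u : κ → ℂ → ℂ) (I : List κ → ℂ → ℂ) (p : ℂ), IsOpen U → IsPreconnected U → Iter U u I → p ∈ U →
      ∀ t ∈ U, nrm I p w t = ∑ x : YT κ W → Fin (W + 1), ((β x : ℚ) : ℂ) * ∏ y, FY (nrm I p) y t ^ (x y : ℕ) := by
    intro w
    by_cases hw : w.length ≤ W
    · obtain ⟨β, hβ⟩ := exists_coeff W w.reverse (by rwa [List.length_reverse])
      refine ⟨β, fun _ U u I p hU hUc hI hp t ht => ?_⟩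
      obtain ⟨hJ, h0⟩ := nrm_iter hU hI p hp
      set J := nrm I p with hJdef
      have h2 : J w t = ev J t (e w.reverse) := by rw [ev_e, List.reverse_reverse]
      have h3 : ev J t (e w.reverse) = ev J t (ofR DD (∑ x : YT κ W → Fin (W + 1), β x • MO fun y => (x y : ℕ))) := by
        rw [hβ]
        rfl
      have h4 : ev J t (ofR DD (∑ x : YT κ W → Fin (W + 1), β x • MO fun y => (x y : ℕ))) =
          ∑ x : YT κ W → Fin (W + 1), ev J t (ofR DD (β x • MO fun y => (x y : ℕ))) := by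
        have : ∀ S : Finset (YT κ W → Fin (W + 1)), ev J t (ofR DD (∑ x ∈ S, β x • MO fun y => (x y : ℕ))) =
            ∑ x ∈ S, ev J t (ofR DD (β x • MO fun y => (x y : ℕ))) := by
          intro S
          induction S using Finset.induction_on with
          | empty =>
            rw [Finset.sum_empty, Finset.sum_empty]
            exact map_zero (ev J t)
          | insert a S ha ih =>
            rw [Finset.sum_insert ha, Finset.sum_insert ha, ← ih]
            exact map_add (ev J t) _ _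
        exact this Finset.univ
      rw [h2, h3, h4]
      refine Finset.sum_congr rfl fun x _ => ?_
      have h5 : ev J t (ofR DD (β x • MO fun y => (x y : ℕ))) = β x • ev J t (ofR DD (MO fun y => (x y : ℕ))) :=
        map_smul (ev J t) _ _
      rw [h5, ev_MO hU hUc hJ hp h0 _ t ht, Rat.smul_def]
    · exact ⟨0, fun h => absurd h hw⟩
  choose β hβ' using hβ
  obtain ⟨N, nb, hN, hnb⟩ := common_den (fun (w : Wd κ W) x => β w.1 x)
  -- integral coefficients for all words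
  let nβ : List κ → (YT κ W → Fin (W + 1)) → ℤ := fun w x => if hw : w ∈ wd κ W then nb ⟨w, hw⟩ x else 0
  have hnβ : ∀ w : List κ, w.length ≤ W →
      ∀ (U : Set ℂ) (u : κ → ℂ → ℂ) (I : List κ → ℂ → ℂ) (p : ℂ), IsOpen U → IsPreconnected U → Iter U u I → p ∈ U →
      ∀ t ∈ U, (N : ℂ) * nrm I p w t =
      ∑ x : YT κ W → Fin (W + 1), ((nβ w x : ℤ) : ℂ) * ∏ y, FY (nrm I p) y t ^ (x y : ℕ) := by
    intro w hw U u I p hU hUc hI hp t ht
    rw [hβ' w hw U u I p hU hUc hI hp t ht, Finset.mul_sum]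
    refine Finset.sum_congr rfl fun x _ => ?_
    have hmem : w ∈ wd κ W := by rwa [mem_wd]
    have h1 : nβ w x = nb ⟨w, hmem⟩ x := dif_pos hmem
    have h2 := hnb ⟨w, hmem⟩ x
    have h3 : (((nb ⟨w, hmem⟩ x : ℤ) : ℚ) : ℂ) = ((N : ℚ) : ℂ) * ((β w x : ℚ) : ℂ) := by
      rw [h2]
      push_cast
      ring
    rw [h1]
    have h4 : ((nb ⟨w, hmem⟩ x : ℤ) : ℂ) = (N : ℂ) * ((β w x : ℚ) : ℂ) := by
      simpa using h3
    rw [h4]
    ring
  let b : Wd κ W → Wd κ W → (YT κ W → Fin (W + 1)) → ℤ := fun w v x =>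
    ∑ k ∈ Finset.range (w.1.length + 1), if w.1.drop k = v.1 then nβ (w.1.take k) x else 0
  refine ⟨N, b, hN, ?_⟩
  intro U u I p hU hUc hI hp hg
  obtain ⟨hJ, h0⟩ := nrm_iter hU hI p hp
  set J := nrm I p with hJdef
  let kap : Wd κ W → ℂ := fun v => I v.1 p
  have hb : ∀ (w : Wd κ W) x, ∑ v, kap v * ((b w v x : ℤ) : ℂ) =
      ∑ k ∈ Finset.range (w.1.length + 1), I (w.1.drop k) p * ((nβ (w.1.take k) x : ℤ) : ℂ) := by
    intro w x
    have e1 : ∀ v : Wd κ W, kap v * ((b w v x : ℤ) : ℂ) = ∑ k ∈ Finset.range (w.1.length + 1),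
        if w.1.drop k = v.1 then I v.1 p * ((nβ (w.1.take k) x : ℤ) : ℂ) else 0 := by
      intro v
      simp only [kap, b]
      push_cast
      rw [Finset.mul_sum]
      refine Finset.sum_congr rfl fun k _ => ?_
      split_ifs <;> simp
    rw [Finset.sum_congr rfl fun v _ => e1 v, Finset.sum_comm]
    refine Finset.sum_congr rfl fun k hk => ?_
    have hmem : w.1.drop k ∈ wd κ W := by
      have h1 := (mem_wd W w.1).1 w.2
      rw [mem_wd, List.length_drop]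
      omega
    rw [Finset.sum_eq_single (⟨w.1.drop k, hmem⟩ : Wd κ W)]
    · rw [if_pos rfl]
    · intro v _ hv
      rw [if_neg]
      intro hcon
      exact hv (Subtype.ext hcon.symm)
    · intro hcon
      exact absurd (Finset.mem_univ _) hcon
  have hIrep : ∀ (w : Wd κ W), ∀ t ∈ U, (N : ℂ) * I w.1 t =
      ∑ x : YT κ W → Fin (W + 1), (∑ v, kap v * ((b w v x : ℤ) : ℂ)) * ∏ y, FY J y t ^ (x y : ℕ) := by
    intro w t ht
    have hw := (mem_wd W w.1).1 w.2
    rw [iter_eq I p t (hI.nil p hp) w.1, Finset.mul_sum]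
    have e1 : ∀ k ∈ Finset.range (w.1.length + 1), (N : ℂ) * (nrm I p (w.1.take k) t * I (w.1.drop k) p) =
        ∑ x : YT κ W → Fin (W + 1), (I (w.1.drop k) p * ((nβ (w.1.take k) x : ℤ) : ℂ)) *
          ∏ y, FY J y t ^ (x y : ℕ) := by
      intro k hk
      have h1 := hnβ (w.1.take k) (by rw [List.length_take]; omega) U u I p hU hUc hI hp t ht
      rw [← hJdef, ← mul_assoc, h1, Finset.sum_mul]
      refine Finset.sum_congr rfl fun x _ => ?_
      ring
    rw [Finset.sum_congr rfl e1, Finset.sum_comm]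
    refine Finset.sum_congr rfl fun x _ => ?_
    rw [hb, Finset.sum_mul]
  refine ⟨hIrep, ?_⟩
  -- injectivity
  intro a ha
  have hzero : ∀ t ∈ U, ∑ w : Wd κ W, a w * I w.1 t = 0 := by
    intro t ht
    have hN0 : (N : ℂ) ≠ 0 := by exact_mod_cast hN.ne'
    apply mul_left_cancel₀ hN0
    rw [mul_zero, Finset.mul_sum]
    have e1 : ∀ w : Wd κ W, (N : ℂ) * (a w * I w.1 t) = ∑ x : YT κ W → Fin (W + 1),
        (a w * ∑ v, kap v * ((b w v x : ℤ) : ℂ)) * ∏ y, FY J y t ^ (x y : ℕ) := by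
      intro w
      rw [mul_left_comm, hIrep w t ht, Finset.mul_sum]
      refine Finset.sum_congr rfl fun x _ => ?_
      ring
    rw [Finset.sum_congr rfl fun w _ => e1 w, Finset.sum_comm]
    refine Finset.sum_eq_zero fun x _ => ?_
    rw [← Finset.sum_mul, ha x, zero_mul]
  let q : List κ → Polynomial ℂ := fun w => if hw : w ∈ wd κ W then Polynomial.C (a ⟨w, hw⟩) else 0
  have hlin := lin_ind p hg.an hg.alg hg.prim (Iter.near hU hI hp).1 (Iter.near hU hI hp).2 W q (by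
    filter_upwards [hU.mem_nhds hp] with t ht
    rw [← hzero t ht, ← Finset.sum_coe_sort (wd κ W) (fun w => (q w).eval t * I w t)]
    refine Finset.sum_congr rfl fun w _ => ?_
    have h1 : q w.1 = Polynomial.C (a w) := dif_pos w.2
    rw [h1, Polynomial.eval_C])
  funext w
  have h1 := hlin w.1 w.2
  have h2 : q w.1 = Polynomial.C (a w) := dif_pos w.2
  rw [h2, Polynomial.C_eq_zero] at h1
  exact h1

/-- iterated primitives depending continuously on parameters -/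
structure IterP {P₀ : Type} [TopologicalSpace P₀] (U : Set (P₀ × ℂ)) (u : κ → P₀ → ℂ → ℂ) (I : List κ → P₀ → ℂ → ℂ) :
    Prop where
  nil : ∀ x ∈ U, I [] x.1 x.2 = 1
  cons : ∀ i w, ∀ x ∈ U, HasDerivAt (I (i :: w) x.1) (u i x.1 x.2 * I w x.1 x.2) x.2
  cont : ∀ w, ContinuousOn (fun x : P₀ × ℂ => I w x.1 x.2) U
  good : ∀ x ∈ U, Good x.2 fun i => u i x.1

theorem slice_open {P₀ : Type} [TopologicalSpace P₀] {U : Set (P₀ × ℂ)} (hU : IsOpen U) {x : P₀ × ℂ} (hx : x ∈ U) :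
    ∀ᶠ t in 𝓝 x.2, (x.1, t) ∈ U := by
  have h1 : Continuous fun t : ℂ => ((x.1, t) : P₀ × ℂ) := by fun_prop
  exact h1.continuousAt.eventually_mem (hU.mem_nhds hx)

omit [DecidableEq κ] in
theorem IterP.ja {P₀ : Type} [PseudoMetricSpace P₀] {U : Set (P₀ × ℂ)} {u : κ → P₀ → ℂ → ℂ}
    {I : List κ → P₀ → ℂ → ℂ} (h : IterP U u I) (hU : IsOpen U) (w : List κ) {x : P₀ × ℂ} (hx : x ∈ U) :
    JA (I w) x := by
  filter_upwards [hU.mem_nhds hx] with y hy
  refine ⟨(h.cont w).continuousAt (hU.mem_nhds hy), ?_⟩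
  cases w with
  | nil =>
    refine (analyticAt_const (v := (1 : ℂ))).congr ?_
    filter_upwards [slice_open hU hy] with t ht
    exact (h.nil _ ht).symm
  | cons i w =>
    refine an_of_deriv (g := fun t => u i y.1 t * I w y.1 t) ?_
    filter_upwards [slice_open hU hy] with t ht
    exact h.cons i w _ ht

omit [DecidableEq κ] in
/-- a function of the parameter alone -/
theorem ja_base {P₀ : Type} [PseudoMetricSpace P₀] {U : Set (P₀ × ℂ)} {u : κ → P₀ → ℂ → ℂ}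
    {I : List κ → P₀ → ℂ → ℂ} (h : IterP U u I) (hU : IsOpen U) (w : List κ) (t₀ : ℂ) {x : P₀ × ℂ}
    (hx : (x.1, t₀) ∈ U) : JA (fun s _ => I w s t₀) x := by
  have h1 : Continuous fun y : P₀ × ℂ => ((y.1, t₀) : P₀ × ℂ) := by fun_prop
  filter_upwards [h1.continuousAt.eventually_mem (hU.mem_nhds hx)] with y hy
  refine ⟨?_, analyticAt_const⟩
  have h2 := (h.cont w).continuousAt (hU.mem_nhds hy)
  exact ContinuousAt.comp (g := fun x : P₀ × ℂ => I w x.1 x.2) (f := fun y : P₀ × ℂ => ((y.1, t₀) : P₀ × ℂ)) h2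
    h1.continuousAt

theorem ja_nrm {P₀ : Type} [PseudoMetricSpace P₀] {U : Set (P₀ × ℂ)} {u : κ → P₀ → ℂ → ℂ}
    {I : List κ → P₀ → ℂ → ℂ} (h : IterP U u I) (hU : IsOpen U) (t₀ : ℂ) {x : P₀ × ℂ} (hx : x ∈ U)
    (hx₀ : (x.1, t₀) ∈ U) (w : List κ) : JA (fun s t => nrm (fun v => I v s) t₀ w t) x := by
  induction hn : w.length using Nat.strong_induction_on generalizing w with
  | _ n ih =>
    have h1 : (fun s t => nrm (fun v => I v s) t₀ w t) = fun s t => I w s t + ∑ k : Fin w.length,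
        ((-1 : ℂ) * nrm (fun v => I v s) t₀ (w.take k) t) * I (w.drop k) s t₀ := by
      funext s t
      rw [nrm]
      beta_reduce
      rw [sub_eq_add_neg, ← Finset.sum_neg_distrib]
      congr 1
      refine Finset.sum_congr rfl fun k _ => ?_
      ring
    rw [h1]
    refine (h.ja hU w hx).add (JA.sum Finset.univ fun k => ?_)
    refine JA.mul ((JA.const (-1) x).mul (ih (w.take k).length ?_ _ rfl)) (ja_base h hU _ t₀ hx₀)
    rw [← hn, List.length_take]
    have := k.2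
    omega

theorem ja_FY {P₀ : Type} [PseudoMetricSpace P₀] {U : Set (P₀ × ℂ)} {u : κ → P₀ → ℂ → ℂ}
    {I : List κ → P₀ → ℂ → ℂ} (h : IterP U u I) (hU : IsOpen U) (t₀ : ℂ) {x : P₀ × ℂ} (hx : x ∈ U)
    (hx₀ : (x.1, t₀) ∈ U) {W : ℕ} (y : YT κ W) : JA (fun s t => FY (nrm (fun v => I v s) t₀) y t) x := by
  obtain ⟨N, hN⟩ : ∃ N : ℕ, ∀ w, coef (AR y.t) w ≠ 0 → w.length ≤ N := by
    refine ⟨((AR y.t : List κ →₀ ℚ).support).sup List.length, fun w hw => ?_⟩
    exact Finset.le_sup (f := List.length) (Finsupp.mem_support_iff.2 hw)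
  have h1 : (fun s t => FY (nrm (fun v => I v s) t₀) y t) = fun s t => ∑ w ∈ wd κ N,
      ((coef (AR y.t) w.reverse : ℚ) : ℂ) * nrm (fun v => I v s) t₀ w t := by
    funext s t
    exact ev_eq_sum (nrm (fun v => I v s) t₀) t N (AR y.t) hN
  rw [h1]
  exact JA.sum _ fun w => (JA.const _ x).mul (ja_nrm h hU t₀ hx hx₀ w)

/-- uniform injectivity -/
theorem unif_inj {P₀ Ω X : Type} [PseudoMetricSpace P₀] [Fintype Ω] [Fintype X] {K : Set P₀} (hK : IsCompact K)
    (Bm : P₀ → Ω → X → ℂ) (hB : ∀ w x, ContinuousOn (fun s => Bm s w x) K)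
    (hinj : ∀ s ∈ K, ∀ a : Ω → ℂ, (∀ x, ∑ w, a w * Bm s w x = 0) → a = 0) :
    ∃ Γ : ℝ, 0 ≤ Γ ∧ ∀ s ∈ K, ∀ (a : Ω → ℂ) (M : ℝ), (∀ x, ‖∑ w, a w * Bm s w x‖ ≤ M) → ∀ w, ‖a w‖ ≤ Γ * M := by
  classical
  -- the norm of the image
  set S : Set (P₀ × (Ω → ℂ)) := K ×ˢ Metric.sphere (0 : Ω → ℂ) 1 with hS
  have hSc : IsCompact S := hK.prod (isCompact_sphere _ _)
  set F : P₀ × (Ω → ℂ) → ℝ := fun q => ∑ x, ‖∑ w, q.2 w * Bm q.1 w x‖ with hF
  have hFc : ContinuousOn F S := by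
    refine continuousOn_finsetSum _ fun x _ => ContinuousOn.norm (continuousOn_finsetSum _ fun w _ => ?_)
    refine ContinuousOn.mul ?_ ?_
    · exact ((continuous_apply w).comp continuous_snd).continuousOn
    · exact (hB w x).comp continuousOn_fst fun q hq => hq.1
  have hFpos : ∀ q ∈ S, 0 < F q := by
    rintro ⟨s, a⟩ ⟨hs, ha⟩
    have h0 : 0 ≤ F (s, a) := Finset.sum_nonneg fun _ _ => norm_nonneg _
    refine lt_of_le_of_ne h0 fun heq => ?_
    have h1 : ∀ x, ‖∑ w, a w * Bm s w x‖ = 0 := by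
      intro x
      have h2 := (Finset.sum_eq_zero_iff_of_nonneg (s := Finset.univ) (f := fun x => ‖∑ w, a w * Bm s w x‖)
        (fun _ _ => norm_nonneg _)).1 heq.symm
      exact h2 x (Finset.mem_univ _)
    have h3 := hinj s hs a fun x => norm_eq_zero.1 (h1 x)
    rw [mem_sphere_zero_iff_norm, h3, norm_zero] at ha
    exact zero_ne_one ha
  obtain ⟨m, hm, hmF⟩ : ∃ m : ℝ, 0 < m ∧ ∀ q ∈ S, m ≤ F q := by
    rcases S.eq_empty_or_nonempty with he | hne
    · exact ⟨1, one_pos, fun q hq => by rw [he] at hq; exact absurd hq (Set.notMem_empty _)⟩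
    · obtain ⟨q₀, hq₀, hmin⟩ := hSc.exists_isMinOn hne hFc
      exact ⟨F q₀, hFpos q₀ hq₀, fun q hq => hmin hq⟩
  refine ⟨Fintype.card X / m, by positivity, ?_⟩
  intro s hs a M hM w
  by_cases ha : a = 0
  · subst ha
    rw [Pi.zero_apply, norm_zero]
    by_cases hX : Nonempty X
    · obtain ⟨x⟩ := hX
      have h1 : 0 ≤ M := (norm_nonneg _).trans (hM x)
      positivity
    · rw [not_nonempty_iff] at hX
      rw [Fintype.card_eq_zero]
      simp
  · have hna : 0 < ‖a‖ := norm_pos_iff.2 ha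
    have h1 := hmF (s, (‖a‖⁻¹ : ℂ) • a) ⟨hs, by
      rw [mem_sphere_zero_iff_norm, norm_smul, norm_inv, Complex.norm_real, norm_norm, inv_mul_cancel₀ hna.ne']⟩
    have h2 : F (s, (‖a‖⁻¹ : ℂ) • a) = ‖a‖⁻¹ * ∑ x, ‖∑ w, a w * Bm s w x‖ := by
      simp only [hF, Pi.smul_apply, smul_eq_mul]
      rw [Finset.mul_sum]
      refine Finset.sum_congr rfl fun x _ => ?_
      have h3 : ∑ w, (‖a‖⁻¹ : ℂ) * a w * Bm s w x = (‖a‖⁻¹ : ℂ) * ∑ w, a w * Bm s w x := by
        rw [Finset.mul_sum]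
        refine Finset.sum_congr rfl fun w _ => ?_
        ring
      rw [h3, norm_mul, norm_inv, Complex.norm_real, norm_norm]
    rw [h2] at h1
    have h4 : ∑ x, ‖∑ w, a w * Bm s w x‖ ≤ Fintype.card X * M := by
      calc _ ≤ ∑ _x : X, M := Finset.sum_le_sum fun x _ => hM x
        _ = _ := by rw [Finset.sum_const, Finset.card_univ, nsmul_eq_mul]
    have h5 : m * ‖a‖ ≤ Fintype.card X * M := by
      have h6 : m * ‖a‖ ≤ ‖a‖⁻¹ * (∑ x, ‖∑ w, a w * Bm s w x‖) * ‖a‖ := mul_le_mul_of_nonneg_right h1 hna.le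
      have h7 : ‖a‖⁻¹ * (∑ x, ‖∑ w, a w * Bm s w x‖) * ‖a‖ = ∑ x, ‖∑ w, a w * Bm s w x‖ := by
        field_simp
      rw [h7] at h6
      exact h6.trans h4
    have h8 : ‖a w‖ ≤ ‖a‖ := norm_le_pi_norm a w
    rw [div_mul_eq_mul_div, le_div_iff₀ hm]
    calc ‖a w‖ * m ≤ ‖a‖ * m := mul_le_mul_of_nonneg_right h8 hm.le
      _ = m * ‖a‖ := mul_comm _ _
      _ ≤ _ := h5

/-- the theorem in one variable, uniformly in parameters -/
theorem linP_iter (g : ℕ) {P₀ : Type} [PseudoMetricSpace P₀] [ProperSpace P₀] {U : Set (P₀ × ℂ)} (hU : IsOpen U)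
    {u : κ → P₀ → ℂ → ℂ} {I : List κ → P₀ → ℂ → ℂ} (h : IterP U u I) {L : Set (P₀ × ℂ)} (hL : IsCompact L)
    (hLU : L ⊆ U) (W : ℕ) : LinP g L fun (w : Wd κ W) s t => I w.1 s t := by
  classical
  obtain ⟨N, b, hN, hrep⟩ := iter_rep (κ := κ) W
  -- the local theorem
  have hloc : ∀ x₀ ∈ L, ∃ V ∈ 𝓝 x₀, LinP g V fun (w : Wd κ W) s t => I w.1 s t := by
    rintro ⟨s₀, t₀⟩ hx₀
    obtain ⟨ρ, hρ, hball⟩ := Metric.isOpen_iff.1 hU (s₀, t₀) (hLU hx₀)
    set r : ℝ := ρ / 2 with hr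
    have hr0 : 0 < r := by positivity
    have hsub : ∀ s t, dist s s₀ < ρ → dist t t₀ < ρ → ((s, t) : P₀ × ℂ) ∈ U := by
      intro s t hs ht
      refine hball ?_
      rw [Metric.mem_ball, Prod.dist_eq, max_lt_iff]
      exact ⟨hs, ht⟩
    set K : Set (P₀ × ℂ) := Metric.closedBall s₀ r ×ˢ Metric.closedBall t₀ r with hK
    have hKc : IsCompact K := (isCompact_closedBall _ _).prod (isCompact_closedBall _ _)
    have hKnhds : K ∈ 𝓝 ((s₀, t₀) : P₀ × ℂ) :=
      prod_mem_nhds (Metric.closedBall_mem_nhds _ hr0) (Metric.closedBall_mem_nhds _ hr0)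
    have hKU : ∀ x ∈ K, x ∈ U ∧ (x.1, t₀) ∈ U := by
      rintro ⟨s, t⟩ ⟨hs, ht⟩
      have hs' : dist s s₀ ≤ r := hs
      have ht' : dist t t₀ ≤ r := ht
      exact ⟨hsub s t (by linarith) (by linarith), hsub s t₀ (by linarith) (by rw [dist_self]; exact hρ)⟩
    have hiter : ∀ s, dist s s₀ < ρ → Iter (Metric.ball t₀ ρ) (fun i => u i s) (fun w => I w s) := by
      intro s hs
      exact ⟨fun t ht => h.nil (s, t) (hsub s t hs ht), fun i w t ht => h.cons i w (s, t) (hsub s t hs ht)⟩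
    have hpre : IsPreconnected (Metric.ball t₀ ρ) := (convex_ball t₀ ρ).isPreconnected
    have ht₀ : t₀ ∈ Metric.ball t₀ ρ := Metric.mem_ball_self hρ
    have hrs : ∀ s ∈ Metric.closedBall s₀ r, dist s s₀ < ρ := by
      intro s hs
      have hs' : dist s s₀ ≤ r := hs
      linarith
    have hrt : ∀ t ∈ Metric.closedBall t₀ r, t ∈ Metric.ball t₀ ρ := by
      intro t ht
      have ht' : dist t t₀ ≤ r := ht
      rw [Metric.mem_ball]
      linarith
    obtain ⟨Γ, hΓ0, hΓ⟩ := unif_inj (isCompact_closedBall s₀ r)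
      (fun s (w : Wd κ W) (x : YT κ W → Fin (W + 1)) => ∑ v : Wd κ W, I v.1 s t₀ * ((b w v x : ℤ) : ℂ)) (by
        intro w x
        refine continuousOn_finsetSum _ fun v _ => ContinuousOn.mul ?_ continuousOn_const
        refine (h.cont v.1).comp (f := fun s : P₀ => ((s, t₀) : P₀ × ℂ)) ?_ ?_
        · exact (by fun_prop : Continuous fun s : P₀ => ((s, t₀) : P₀ × ℂ)).continuousOn
        · intro s hs
          exact hsub s t₀ (hrs s hs) (by rw [dist_self]; exact hρ)) (by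
        intro s hs
        exact (hrep (Metric.ball t₀ ρ) (fun i => u i s) (fun w => I w s) t₀ Metric.isOpen_ball hpre
          (hiter s (hrs s hs)) ht₀ (h.good (s, t₀) (hsub s t₀ (hrs s hs) (by rw [dist_self]; exact hρ)))).2)
    refine ⟨K, hKnhds, linP g (fun (y : YT κ W) s t => FY (nrm (fun v => I v s) t₀) y t) K hKc ?_ ?_
      (fun (w : Wd κ W) s t => I w.1 s t) (fun (v : Wd κ W) s => I v.1 s t₀) W b N ?_ Γ hΓ0 ?_⟩
    · intro y x hx
      exact ja_FY h hU t₀ (hKU x hx).1 (hKU x hx).2 y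
    · rintro ⟨s, t⟩ ⟨hs, ht⟩
      obtain ⟨hJ, h0⟩ := nrm_iter Metric.isOpen_ball (hiter s (hrs s hs)) t₀ ht₀
      exact locInd_of_good Metric.isOpen_ball hpre hJ ht₀ h0 W (hrt t ht) (h.good (s, t) (hKU (s, t) ⟨hs, ht⟩).1)
    · rintro w ⟨s, t⟩ ⟨hs, ht⟩
      exact (hrep (Metric.ball t₀ ρ) (fun i => u i s) (fun w => I w s) t₀ Metric.isOpen_ball hpre
        (hiter s (hrs s hs)) ht₀ (h.good (s, t₀) (hsub s t₀ (hrs s hs) (by rw [dist_self]; exact hρ)))).1 w t (hrt t ht)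
    · rintro ⟨s, t⟩ ⟨hs, ht⟩ a M hM w
      exact hΓ s hs a M hM w
  -- gluing
  choose! V hV hVL using hloc
  obtain ⟨F, hF, hcov⟩ := hL.elim_nhds_subcover V hV
  refine LinP.glue (J := F) (fun x => V x.1) (fun x => hVL x.1 (hF x.1 x.2)) ?_
  intro x hx
  obtain ⟨y, hy, hxy⟩ := Set.mem_iUnion₂.1 (hcov hx)
  exact Set.mem_iUnion.2 ⟨⟨y, hy⟩, hxy⟩

end Pool.Agent.Y900.PV
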