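import Pool.Agent.Y124.MultiR

/-!
# Several variables, functions depending on the later variables and on parameters
(adapted from `Pool.Agent.Y124.multiR` of helper124)
-/

set_option autoImplicit false

open Finset

namespace Pool.Agent.Y900.PV

open Pool.Agent.Y124
open Pool.Agent.Y120 (NormRing Pt)

/-- few exceptional values of the variable `j`, for fixed values of the later variables and of the parameters -/
def LV (g : ℕ) {S : Type} {n : ℕ} (K : Fin n → Set ℂ) (j : Fin n) {Ω : Type} [Fintype Ω] (Φ : S → (Fin n → ℂ) → Ω → ℂ) :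
    Prop :=
  ∀ (h : Type) [Fintype h] [DecidableEq h] (A ε : ℝ), 0 < ε → ∃ B C T2 : ℝ, 0 < C ∧ 2 ≤ T2 ∧
    ∀ T : ℝ, T2 ≤ T → ∀ R : Subring (Fin (g + 1) → ℂ), NormRing R → ∀ ξ : h → ℂ, ∀ (s : S) (z : Fin n → ℂ),
      (∀ i, j < i → z i ∈ K i) → ∀ Y : Finset ℂ,
      (∀ y ∈ Y, y ∈ K j ∧ Pt R T y ∧ RelR R ξ (Φ s (Function.update z j y)) (T ^ A) (T ^ (-B))) →
      (Y.card : ℝ) ≤ C * T ^ ε

theorem multiLin (g : ℕ) {S : Type} (n : ℕ) :
    ∀ (K : Fin n → Set ℂ) (Ω : Fin n → Type) [∀ j, Fintype (Ω j)] [∀ j, DecidableEq (Ω j)]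
      (Φ : ∀ j, S → (Fin n → ℂ) → Ω j → ℂ)
      (_ : ∀ j s x x', (∀ i, j ≤ i → x i = x' i) → Φ j s x = Φ j s x') (_ : ∀ j, LV g K j (Φ j))
      (h : Type) [Fintype h] [DecidableEq h] (A ε : ℝ), 0 < ε →
    ∃ B C T2 : ℝ, 0 ≤ B ∧ 0 < C ∧ 2 ≤ T2 ∧ ∀ T : ℝ, T2 ≤ T → ∀ R : Subring (Fin (g + 1) → ℂ), NormRing R →
      ∀ ξ : h → ℂ, ∀ s : S, ∀ X : Fin n → Finset ℂ, (∀ j, ∀ x ∈ X j, x ∈ K j ∧ Pt R T x) →
        ∀ Y ⊆ Fintype.piFinset X,
        (∀ x ∈ Y, RelR R ξ (fun e : (∀ j, Ω j) => ∏ j, Φ j s x (e j)) (T ^ A) (T ^ (-B))) →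
        (Y.card : ℝ) ≤ C * T ^ ε * MgR X := by
  classical
  induction n with
  | zero =>
    intro K Ω _ _ Φ _ _ h _ _ A ε hε
    refine ⟨1, 1, 2, zero_le_one, one_pos, le_rfl, fun T hT R hR ξ s X hX Y hY hrel => ?_⟩
    have hemp : Y = ∅ := by
      rw [Finset.eq_empty_iff_forall_notMem]
      intro x hx
      obtain ⟨c, hcR, hc, l₀, hl₀, hs⟩ := hrel x hx
      have h1 : ∑ l : (∀ j : Fin 0, Ω j), (∑ s, ξ s * c l s 0) * ∏ j, Φ j s x (l j) = ∑ s, ξ s * c l₀ s 0 := by
        rw [Fintype.sum_subsingleton _ l₀]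
        simp
      rw [h1] at hs
      have h2 : 0 < ‖∑ s, ξ s * c l₀ s 0‖ := norm_pos_iff.2 hl₀
      have h3 : T ^ (-(1 : ℝ)) ≤ 1 / 2 := by
        rw [Real.rpow_neg (by linarith), Real.rpow_one, one_div]
        exact inv_anti₀ (by norm_num) hT
      nlinarith
    rw [hemp]
    have : (0 : ℝ) ≤ T ^ ε := (Real.rpow_pos_of_pos (by linarith) _).le
    simp [MgR]
  | succ n ih =>
    intro K Ω _ _ Φ hdep hLV h _ _ A ε hε
    -- the tail
    let Φ' : ∀ j : Fin n, S → (Fin n → ℂ) → Ω j.succ → ℂ := fun j s x => Φ j.succ s (Fin.cons 0 x)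
    have hΦ' : ∀ (j : Fin n) (s : S) (x : Fin (n + 1) → ℂ), Φ' j s (fun i => x i.succ) = Φ j.succ s x := by
      intro j s x
      refine hdep j.succ s _ _ fun i hi => ?_
      have hi0 : i ≠ 0 := by
        intro h0
        rw [h0] at hi
        exact absurd hi (not_le.2 (Fin.succ_pos j))
      obtain ⟨i', rfl⟩ := Fin.exists_succ_eq.2 hi0
      rw [Fin.cons_succ]
    have hdep' : ∀ (j : Fin n) (s : S) (x x' : Fin n → ℂ), (∀ i, j ≤ i → x i = x' i) → Φ' j s x = Φ' j s x' := by
      intro j s x x' hxx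
      refine hdep j.succ s _ _ fun i hi => ?_
      have hi0 : i ≠ 0 := by
        intro h0
        rw [h0] at hi
        exact absurd hi (not_le.2 (Fin.succ_pos j))
      obtain ⟨i', rfl⟩ := Fin.exists_succ_eq.2 hi0
      rw [Fin.cons_succ, Fin.cons_succ]
      exact hxx i' (Fin.succ_le_succ_iff.1 hi)
    have hLV' : ∀ j : Fin n, LV g (fun i => K i.succ) j (Φ' j) := by
      intro j h' _ _ A' ε' hε'
      obtain ⟨B, C, T2, hC, hT2, H⟩ := hLV j.succ h' A' ε' hε'
      refine ⟨B, C, T2, hC, hT2, fun T hT R hR ξ s z hz Y hY => ?_⟩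
      refine H T hT R hR ξ s (Fin.cons 0 z) ?_ Y fun y hy => ?_
      · intro i hi
        have hi0 : i ≠ 0 := by
          intro h0
          rw [h0] at hi
          exact absurd hi (not_lt.2 (Fin.zero_le _))
        obtain ⟨i', rfl⟩ := Fin.exists_succ_eq.2 hi0
        rw [Fin.cons_succ]
        exact hz i' (Fin.succ_lt_succ_iff.1 hi)
      · obtain ⟨h1, h2, h3⟩ := hY y hy
        refine ⟨h1, h2, ?_⟩
        have h4 : Φ j.succ s (Function.update (Fin.cons 0 z : Fin (n + 1) → ℂ) j.succ y) =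
            Φ' j s (Function.update z j y) := by
          show _ = Φ j.succ s (Fin.cons 0 (Function.update z j y))
          rw [Fin.cons_update]
        rw [h4]
        exact h3
    obtain ⟨Bn, Cn, Tn, hBn, hCn, hTn, hn⟩ := ih (fun i => K i.succ) (fun j => Ω j.succ) Φ' hdep' hLV' h A ε hε
    obtain ⟨B1, C1, T1, hC1, hT1, h1⟩ := hLV 0 ((∀ j : Fin n, Ω j.succ) × h) A ε hε
    refine ⟨max B1 0 + Bn, max Cn C1, max Tn T1, by positivity, lt_max_of_lt_left hCn, le_max_of_le_left hTn, ?_⟩
    intro T hT R hR ξ s X hX Y hY hrel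
    have hTTn : Tn ≤ T := (le_max_left _ _).trans hT
    have hTT1 : T1 ≤ T := (le_max_right _ _).trans hT
    have hT2 : 2 ≤ T := hTn.trans hTTn
    have hTp : 0 < T := by linarith
    have hT1' : 1 ≤ T := by linarith
    have hTε : 0 ≤ T ^ ε := (Real.rpow_pos_of_pos hTp _).le
    -- the exceptional tails
    set Z : Finset (Fin n → ℂ) := (Fintype.piFinset fun j : Fin n => X j.succ).filter fun x' =>
      RelR R ξ (fun e : (∀ j : Fin n, Ω j.succ) => ∏ j, Φ' j s x' (e j)) (T ^ A) (T ^ (-Bn)) with hZ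
    have hZc := hn T hTTn R hR ξ s (fun j => X j.succ) (fun j => hX j.succ) Z (Finset.filter_subset _ _)
      (fun x hx => (Finset.mem_filter.1 hx).2)
    have hYt : ∀ x ∈ Y, (fun j : Fin n => x j.succ) ∈ Fintype.piFinset fun j : Fin n => X j.succ := by
      intro x hx
      have := Fintype.mem_piFinset.1 (hY hx)
      exact Fintype.mem_piFinset.2 fun j => this j.succ
    -- the fibres over good tails
    have hfib : ∀ x' : Fin n → ℂ, x' ∉ Z →
        (((Y.filter fun x => (fun j : Fin n => x j.succ) = x').card : ℕ) : ℝ) ≤ C1 * T ^ ε := by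
      intro x' hx'
      set Yx := (Y.filter fun x => (fun j : Fin n => x j.succ) = x') with hYx
      by_cases hne : Yx.Nonempty
      swap
      · rw [Finset.not_nonempty_iff_eq_empty.1 hne, Finset.card_empty, Nat.cast_zero]
        positivity
      have hx'pi : x' ∈ Fintype.piFinset fun j : Fin n => X j.succ := by
        obtain ⟨x, hx⟩ := hne
        obtain ⟨hxY, hxx'⟩ := Finset.mem_filter.1 hx
        rw [← hxx']
        exact hYt x hxY
      have hinj : (Yx.image fun x => x 0).card = Yx.card := by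
        refine Finset.card_image_of_injOn ?_
        intro x hx y hy hxy
        rw [Finset.mem_coe, Finset.mem_filter] at hx hy
        funext j
        refine Fin.cases hxy (fun i => ?_) j
        exact congrFun (hx.2.trans hy.2.symm) i
      rw [← hinj]
      refine h1 T hTT1 R hR (fun p => ξ p.2 * ∏ j, Φ' j s x' (p.1 j)) s (Fin.cons 0 x') ?_ _ ?_
      · intro i hi
        obtain ⟨i', rfl⟩ := Fin.exists_succ_eq.2 hi.ne'
        rw [Fin.cons_succ]
        exact (hX i'.succ _ (Fintype.mem_piFinset.1 hx'pi i')).1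
      intro y hy
      obtain ⟨x, hx, rfl⟩ := Finset.mem_image.1 hy
      have hx0 := hX 0 _ (Fintype.mem_piFinset.1 (hY (Finset.mem_filter.1 hx).1) 0)
      refine ⟨hx0.1, hx0.2, ?_⟩
      obtain ⟨hxY, hxx'⟩ := Finset.mem_filter.1 hx
      have hxeq : Function.update (Fin.cons 0 x' : Fin (n + 1) → ℂ) 0 (x 0) = x := by
        funext j
        refine Fin.cases ?_ (fun i => ?_) j
        · rw [Function.update_self]
        · rw [Function.update_of_ne (Fin.succ_ne_zero i), Fin.cons_succ, ← hxx']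
      rw [hxeq]
      obtain ⟨c, hcR, hc, l₀, hl₀, hs⟩ := hrel x hxY
      have hnot : ¬ RelR R ξ (fun e : (∀ j : Fin n, Ω j.succ) => ∏ j, Φ' j s x' (e j)) (T ^ A) (T ^ (-Bn)) :=
        fun hcon => hx' (Finset.mem_filter.2 ⟨hx'pi, hcon⟩)
      -- the combination for the index of the first variable
      set W : Ω 0 → ℂ := fun l =>
        ∑ p : (∀ j : Fin n, Ω j.succ) × h, (ξ p.2 * ∏ j, Φ' j s x' (p.1 j)) *
          c (Fin.cons l p.1) p.2 0 with hW
      have hWe : ∀ l, W l = ∑ e : (∀ j : Fin n, Ω j.succ), (∑ q, ξ q * c (Fin.cons l e) q 0) *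
          ∏ j, Φ' j s x' (e j) := by
        intro l
        simp only [hW]
        rw [Fintype.sum_prod_type]
        refine Finset.sum_congr rfl fun e _ => ?_
        rw [Finset.sum_mul]
        refine Finset.sum_congr rfl fun s _ => ?_
        ring
      have htot : ∑ e : (∀ j : Fin (n + 1), Ω j), (∑ q, ξ q * c e q 0) * ∏ j, Φ j s x (e j) =
          ∑ l : Ω 0, W l * Φ 0 s x l := by
        rw [← (Fin.consEquiv Ω).sum_comp, Fintype.sum_prod_type]
        refine Finset.sum_congr rfl fun l _ => ?_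
        rw [hWe, Finset.sum_mul]
        refine Finset.sum_congr rfl fun e _ => ?_
        have h3 : ((Fin.consEquiv Ω) (l, e)) = (Fin.cons l e : ∀ j : Fin (n + 1), Ω j) := rfl
        have h2 : ∏ j, Φ j s x ((Fin.consEquiv Ω) (l, e) j) = Φ 0 s x l * ∏ j, Φ' j s x' (e j) := by
          rw [h3, Fin.prod_univ_succ]
          congr 1
          refine Finset.prod_congr rfl fun j _ => ?_
          rw [← hxx', hΦ']
          rfl
        rw [h2, h3]
        ring
      have hl₀c : (Fin.cons (l₀ 0) (fun j : Fin n => l₀ j.succ) : ∀ j : Fin (n + 1), Ω j) = l₀ :=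
        Fin.cons_self_tail l₀
      have hbig : T ^ (-Bn) * ‖∑ q, ξ q * c l₀ q 0‖ < ‖W (l₀ 0)‖ := by
        by_contra hcon
        rw [not_lt] at hcon
        apply hnot
        refine ⟨fun e s => c (Fin.cons (l₀ 0) e) s, fun e s => hcR _ _, fun e s => hc _ _, fun j => l₀ j.succ, ?_, ?_⟩
        · change ∑ q, ξ q * c (Fin.cons (l₀ 0) fun j => l₀ j.succ) q 0 ≠ 0
          rw [hl₀c]; exact hl₀
        · change ‖∑ e, (∑ q, ξ q * c (Fin.cons (l₀ 0) e) q 0) * ∏ j, Φ' j s x' (e j)‖ ≤
            T ^ (-Bn) * ‖∑ q, ξ q * c (Fin.cons (l₀ 0) fun j => l₀ j.succ) q 0‖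
          rw [hl₀c, ← hWe]; exact hcon
      have hw0 : 0 < ‖∑ q, ξ q * c l₀ q 0‖ := norm_pos_iff.2 hl₀
      refine ⟨fun l p => c (Fin.cons l p.1) p.2, fun l p => hcR _ _, fun l p => hc _ _, l₀ 0, ?_, ?_⟩
      · intro h0
        have h2 : W (l₀ 0) = 0 := h0
        rw [h2, norm_zero] at hbig
        have : 0 < T ^ (-Bn) := Real.rpow_pos_of_pos hTp _
        have := mul_pos this hw0
        linarith
      · change ‖∑ l, W l * Φ 0 s x l‖ ≤ T ^ (-B1) * ‖W (l₀ 0)‖
        rw [← htot]
        refine hs.trans ?_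
        have h2 : T ^ (-(max B1 0 + Bn)) = T ^ (-(max B1 0)) * T ^ (-Bn) := by
          rw [← Real.rpow_add hTp]
          congr 1
          ring
        rw [h2, mul_assoc]
        have h3 : T ^ (-(max B1 0)) ≤ T ^ (-B1) :=
          Real.rpow_le_rpow_of_exponent_le hT1' (neg_le_neg (le_max_left _ _))
        exact mul_le_mul h3 hbig.le (by positivity) (Real.rpow_pos_of_pos hTp _).le
    -- counting
    have hsplit := Finset.card_filter_add_card_filter_not (s := Y)
      (p := fun x : Fin (n + 1) → ℂ => (fun j : Fin n => x j.succ) ∈ Z)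
    have hp1 : ((Y.filter fun x : Fin (n + 1) → ℂ => (fun j : Fin n => x j.succ) ∈ Z).card : ℝ) ≤
        (X 0).card * Z.card := by
      have hle : (Y.filter fun x : Fin (n + 1) → ℂ => (fun j : Fin n => x j.succ) ∈ Z).card ≤
          (X 0 ×ˢ Z).card := by
        refine Finset.card_le_card_of_injOn (fun t => (t 0, fun j : Fin n => t j.succ)) ?_ ?_
        · intro t ht
          rw [Finset.mem_coe, Finset.mem_filter] at ht
          rw [Finset.mem_coe, Finset.mem_product]
          exact ⟨Fintype.mem_piFinset.1 (hY ht.1) 0, ht.2⟩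
        · intro t _ t' _ heq
          simp only [Prod.mk.injEq] at heq
          funext j
          refine Fin.cases heq.1 (fun i => congrFun heq.2 i) j
      rw [Finset.card_product] at hle
      exact_mod_cast hle
    have hp2 : ((Y.filter fun x : Fin (n + 1) → ℂ => ¬ (fun j : Fin n => x j.succ) ∈ Z).card : ℝ) ≤
        C1 * T ^ ε * ∏ i : Fin n, ((X i.succ).card : ℝ) := by
      have h2 := Finset.card_eq_sum_card_fiberwise (s := Y.filter fun x : Fin (n + 1) → ℂ =>
          ¬ (fun j : Fin n => x j.succ) ∈ Z) (t := Fintype.piFinset fun j : Fin n => X j.succ)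
        (f := fun x => fun j : Fin n => x j.succ) (by
          intro x hx
          rw [Finset.mem_coe, Finset.mem_filter] at hx
          exact hYt x hx.1)
      rw [h2]
      push_cast
      calc ∑ x' ∈ Fintype.piFinset fun j : Fin n => X j.succ,
            ((((Y.filter fun x : Fin (n + 1) → ℂ => ¬ (fun j : Fin n => x j.succ) ∈ Z).filter
              fun x => (fun j : Fin n => x j.succ) = x').card : ℕ) : ℝ)
          ≤ ∑ x' ∈ Fintype.piFinset fun j : Fin n => X j.succ, C1 * T ^ ε := by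
            refine Finset.sum_le_sum fun x' _ => ?_
            by_cases hx' : x' ∈ Z
            · have h3 : ((Y.filter fun x : Fin (n + 1) → ℂ => ¬ (fun j : Fin n => x j.succ) ∈ Z).filter
                  fun x => (fun j : Fin n => x j.succ) = x') = ∅ := by
                rw [Finset.eq_empty_iff_forall_notMem]
                intro x hx
                rw [Finset.mem_filter, Finset.mem_filter] at hx
                exact hx.1.2 (hx.2 ▸ hx')
              rw [h3, Finset.card_empty, Nat.cast_zero]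
              positivity
            · refine le_trans ?_ (hfib x' hx')
              exact_mod_cast Finset.card_le_card (Finset.filter_subset_filter _ (Finset.filter_subset _ _))
        _ = C1 * T ^ ε * ∏ i : Fin n, ((X i.succ).card : ℝ) := by
            rw [Finset.sum_const, Fintype.card_piFinset, nsmul_eq_mul]
            push_cast
            ring
    have hP0 : 0 ≤ ∏ i : Fin n, ((X i.succ).card : ℝ) := Finset.prod_nonneg fun _ _ => Nat.cast_nonneg _
    have hM0 : 0 ≤ MgR (fun i => X i.succ) :=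
      Finset.sum_nonneg fun j _ => Finset.prod_nonneg fun i _ => by split_ifs <;> positivity
    have hCC : 0 < max Cn C1 := lt_max_of_lt_left hCn
    rw [MgR_succ]
    have hYc : (Y.card : ℝ) = ((Y.filter fun x : Fin (n + 1) → ℂ => (fun j : Fin n => x j.succ) ∈ Z).card : ℝ) +
        ((Y.filter fun x : Fin (n + 1) → ℂ => ¬ (fun j : Fin n => x j.succ) ∈ Z).card : ℝ) := by
      exact_mod_cast hsplit.symm
    rw [hYc]
    calc ((Y.filter fun x : Fin (n + 1) → ℂ => (fun j : Fin n => x j.succ) ∈ Z).card : ℝ) +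
        ((Y.filter fun x : Fin (n + 1) → ℂ => ¬ (fun j : Fin n => x j.succ) ∈ Z).card : ℝ)
        ≤ (X 0).card * (Cn * T ^ ε * MgR (fun i => X i.succ)) +
          C1 * T ^ ε * ∏ i : Fin n, ((X i.succ).card : ℝ) :=
          add_le_add (hp1.trans (mul_le_mul_of_nonneg_left hZc (Nat.cast_nonneg _))) hp2
      _ ≤ (X 0).card * (max Cn C1 * T ^ ε * MgR (fun i => X i.succ)) +
          max Cn C1 * T ^ ε * ∏ i : Fin n, ((X i.succ).card : ℝ) := by
          refine add_le_add (mul_le_mul_of_nonneg_left ?_ (Nat.cast_nonneg _)) ?_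
          · exact mul_le_mul_of_nonneg_right (mul_le_mul_of_nonneg_right (le_max_left _ _) hTε) hM0
          · exact mul_le_mul_of_nonneg_right (mul_le_mul_of_nonneg_right (le_max_right _ _) hTε) hP0
      _ = max Cn C1 * T ^ ε * (∏ i : Fin n, ((X i.succ).card : ℝ) + (X 0).card * MgR (fun i => X i.succ)) := by
          ring

end Pool.Agent.Y900.PV
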