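import Pool.Agent.Y900.PV.Multi
import Pool.Agent.Y900.PV.Loc

/-!
# Iterated primitives in several variables at points of number fields
-/

set_option autoImplicit false

open Filter Set NumberField
open scoped Topology

namespace Pool.Agent.Y900.PV

open Pool.Agent.Y900.HY
open Pool.Agent.Y119.UP (wd mem_wd)
open Pool.Agent.Y124
open Pool.Agent.Y120 (NormRing Pt RK RK_norm hK hK_apply gK card_eq HtLe Pt_of_HtLe HtLe_fin en en_zero)

theorem MgR_le {n : ℕ} (X : Fin n → Finset ℂ) (N : ℝ) (hX : ∀ j, ((X j).card : ℝ) ≤ N) :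
    MgR X ≤ n * N ^ (n - 1) := by
  have h1 : ∀ j : Fin n, ∏ i : Fin n, (if i = j then (1 : ℝ) else ((X i).card : ℝ)) ≤ N ^ (n - 1) := by
    intro j
    rw [← Finset.mul_prod_erase Finset.univ _ (Finset.mem_univ j), if_pos rfl, one_mul]
    calc ∏ i ∈ Finset.univ.erase j, (if i = j then (1 : ℝ) else ((X i).card : ℝ)) ≤
          ∏ _i ∈ Finset.univ.erase j, N := by
          refine Finset.prod_le_prod (fun i _ => by split_ifs <;> positivity) fun i hi => ?_
          rw [if_neg (Finset.ne_of_mem_erase hi)]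
          exact hX i
      _ = N ^ (n - 1) := by
          rw [Finset.prod_const, Finset.card_erase_of_mem (Finset.mem_univ j), Finset.card_univ, Fintype.card_fin]
  calc MgR X ≤ ∑ _j : Fin n, N ^ (n - 1) := Finset.sum_le_sum fun j _ => h1 j
    _ = n * N ^ (n - 1) := by rw [Finset.sum_const, Finset.card_univ, Fintype.card_fin, nsmul_eq_mul]

/-- tuples over all number fields of degree at most `m` -/
theorem multiNF (m n : ℕ) {S : Type} (K : Fin n → Set ℂ) (Ω : Fin n → Type) [∀ j, Fintype (Ω j)]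
    [∀ j, DecidableEq (Ω j)] (Φ : ∀ j, S → (Fin n → ℂ) → Ω j → ℂ)
    (hdep : ∀ j s x x', (∀ i, j ≤ i → x i = x' i) → Φ j s x = Φ j s x') (hLV : ∀ g j, LV g K j (Φ j))
    (Q : Set ℂ) (h : Type) [Fintype h] [DecidableEq h] (A ε : ℝ) (hε : 0 < ε) :
    ∃ B C T₀ : ℝ, 0 ≤ B ∧ 0 ≤ C ∧ 2 ≤ T₀ ∧ ∀ (F : Type) [Field F] [NumberField F], Module.finrank ℚ F ≤ m →
      ∀ (io : F →+* ℂ) (ξ : h → ℂ) (s : S) (T : ℝ), T₀ ≤ T → ∀ E : Set (Fin n → F),
      (∀ t ∈ E, (∀ j, HtLe F T (t j) ∧ io (t j) ∈ K j ∧ io (t j) ∈ Q) ∧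
        RelK F io ξ (fun e : (∀ j, Ω j) => ∏ j, Φ j s (fun i => io (t i)) (e j)) (T ^ A) (T ^ (-B))) →
      E.Finite ∧ (E.ncard : ℝ) ≤ C * T ^ ε * (({x : F | HtLe F T x ∧ io x ∈ Q}.ncard : ℝ)) ^ (n - 1) := by
  classical
  have hg := fun g : ℕ => multiLin g n K Ω Φ hdep (hLV g) h A ε hε
  choose B C T2 hB hC hT2 H using hg
  refine ⟨∑ g ∈ Finset.range m, B g, n * ∑ g ∈ Finset.range m, C g, 2 + ∑ g ∈ Finset.range m, T2 g, ?_, ?_, ?_, ?_⟩
  · exact Finset.sum_nonneg fun g _ => hB g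
  · exact mul_nonneg (Nat.cast_nonneg _) (Finset.sum_nonneg fun g _ => (hC g).le)
  · have : 0 ≤ ∑ g ∈ Finset.range m, T2 g := Finset.sum_nonneg fun g _ => by linarith [hT2 g]
    linarith
  intro F _ _ hm io ξ s T hT E hE
  set g := gK F with hg
  have hgm : g ∈ Finset.range m := Finset.mem_range.2 (gK_lt F hm)
  have hTT : T2 g ≤ T := by
    have h1 := Finset.single_le_sum (f := T2) (fun g _ => by linarith [hT2 g]) hgm
    linarith
  have hBB : B g ≤ ∑ g ∈ Finset.range m, B g := Finset.single_le_sum (f := B) (fun g _ => hB g) hgm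
  have hCC : C g ≤ ∑ g ∈ Finset.range m, C g := Finset.single_le_sum (f := C) (fun g _ => (hC g).le) hgm
  have hT1 : 1 ≤ T := by linarith [hT2 g]
  have hXf : ∀ j, {x : F | HtLe F T x ∧ io x ∈ K j ∧ io x ∈ Q}.Finite := fun j =>
    (HtLe_fin F T).subset fun x hx => hx.1
  have hQf : {x : F | HtLe F T x ∧ io x ∈ Q}.Finite := (HtLe_fin F T).subset fun x hx => hx.1
  set X : Fin n → Finset F := fun j => (hXf j).toFinset with hX
  have hEsub : E ⊆ (Fintype.piFinset X : Finset (Fin n → F)) := by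
    intro t ht
    rw [Finset.mem_coe, Fintype.mem_piFinset]
    intro j
    exact (hXf j).mem_toFinset.2 ((hE t ht).1 j)
  have hEf : E.Finite := (Finset.finite_toSet _).subset hEsub
  refine ⟨hEf, ?_⟩
  set Y : Finset (Fin n → ℂ) := hEf.toFinset.image fun t j => io (t j) with hY
  have hYc : Y.card = E.ncard := by
    rw [hY, Finset.card_image_of_injective, Set.ncard_eq_toFinset_card _ hEf]
    intro t t' htt
    funext j
    exact io.injective (congrFun htt j)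
  have h1 := H g T hTT (RK F io) (RK_norm F io) ξ s (fun j => (X j).image io) (by
    intro j x hx
    obtain ⟨y, hy, rfl⟩ := Finset.mem_image.1 hx
    have hy' := (hXf j).mem_toFinset.1 hy
    exact ⟨hy'.2.1, Pt_of_HtLe F io hy'.1⟩) Y (by
    intro y hy
    obtain ⟨t, ht, rfl⟩ := Finset.mem_image.1 hy
    rw [Fintype.mem_piFinset]
    intro j
    exact Finset.mem_image_of_mem _ ((hXf j).mem_toFinset.2 ((hE t (hEf.mem_toFinset.1 ht)).1 j))) (by
    intro y hy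
    obtain ⟨t, ht, rfl⟩ := Finset.mem_image.1 hy
    refine RelR_mono (Real.rpow_le_rpow_of_exponent_le hT1 (neg_le_neg hBB)) ?_
    exact RelR_of_RelK F io ξ _ _ _ (hE t (hEf.mem_toFinset.1 ht)).2)
  rw [hYc] at h1
  set Nq : ℝ := ({x : F | HtLe F T x ∧ io x ∈ Q}.ncard : ℝ) with hNq
  have hle : MgR (fun j => (X j).image io) ≤ n * Nq ^ (n - 1) := by
    refine MgR_le _ _ fun j => ?_
    rw [Finset.card_image_of_injective _ io.injective, hNq, Set.ncard_eq_toFinset_card _ hQf]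
    refine Nat.cast_le.2 (Finset.card_le_card fun x hx => ?_)
    have hx' := (hXf j).mem_toFinset.1 hx
    exact hQf.mem_toFinset.2 ⟨hx'.1, hx'.2.2⟩
  have hTε : 0 ≤ T ^ ε := (Real.rpow_pos_of_pos (by linarith) _).le
  have hNq0 : 0 ≤ Nq := Nat.cast_nonneg _
  calc (E.ncard : ℝ) ≤ C g * T ^ ε * MgR (fun j => (X j).image io) := h1
    _ ≤ C g * T ^ ε * (n * Nq ^ (n - 1)) := mul_le_mul_of_nonneg_left hle (mul_nonneg (hC g).le hTε)
    _ = (n * C g) * T ^ ε * Nq ^ (n - 1) := by ring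
    _ ≤ _ := by
      refine mul_le_mul_of_nonneg_right (mul_le_mul_of_nonneg_right ?_ hTε) (by positivity)
      exact mul_le_mul_of_nonneg_left hCC (Nat.cast_nonneg _)

/-- iterated primitives in several variables, depending on parameters; the functions with index `j` depend on the
variables `x_i`, `i ≥ j`, and are iterated primitives with respect to `x_j` -/
structure FamP {P₀ : Type} [TopologicalSpace P₀] {n : ℕ} (κ : Fin n → Type) [∀ j, Fintype (κ j)]
    (U : Set (P₀ × (Fin n → ℂ))) (u : ∀ j, κ j → P₀ → (Fin n → ℂ) → ℂ)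
    (I : ∀ j, List (κ j) → P₀ → (Fin n → ℂ) → ℂ) : Prop where
  nil : ∀ j, ∀ q ∈ U, I j [] q.1 q.2 = 1
  cons : ∀ j i w, ∀ q ∈ U, HasDerivAt (fun t => I j (i :: w) q.1 (Function.update q.2 j t))
    (u j i q.1 q.2 * I j w q.1 q.2) (q.2 j)
  cont : ∀ j w, ContinuousOn (fun q : P₀ × (Fin n → ℂ) => I j w q.1 q.2) U
  dep : ∀ j w s x x', (s, x) ∈ U → (s, x') ∈ U → (∀ i, j ≤ i → x i = x' i) → I j w s x = I j w s x'
  good : ∀ j, ∀ q ∈ U, Good (q.2 j) fun i t => u j i q.1 (Function.update q.2 j t)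

variable {P₀ : Type} [PseudoMetricSpace P₀]

/-- the point with the coordinates of the centre before `j`, and with `t` at `j` -/
def xx {n : ℕ} (x₀ : Fin n → ℂ) (j : Fin n) (z : Fin n → ℂ) (t : ℂ) : Fin n → ℂ := fun i =>
  if i < j then x₀ i else if i = j then t else z i

theorem xx_cont {n : ℕ} (x₀ : Fin n → ℂ) (j : Fin n) :
    Continuous fun q : (P₀ × (Fin n → ℂ)) × ℂ => ((q.1.1, xx x₀ j q.1.2 q.2) : P₀ × (Fin n → ℂ)) := by
  refine Continuous.prodMk (by fun_prop) (continuous_pi fun i => ?_)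
  unfold xx
  by_cases h1 : i < j
  · simp only [h1, if_true]
    exact continuous_const
  · by_cases h2 : i = j
    · simp only [h1, if_false, h2, if_true, lt_irrefl]
      exact continuous_snd
    · simp only [h1, if_false, h2]
      fun_prop

theorem xx_update {n : ℕ} (x₀ : Fin n → ℂ) (j : Fin n) (z : Fin n → ℂ) (t t' : ℂ) :
    Function.update (xx x₀ j z t) j t' = xx x₀ j z t' := by
  funext i
  by_cases h : i = j
  · subst h
    rw [Function.update_self, xx, if_neg (lt_irrefl _), if_pos rfl]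
  · rw [Function.update_of_ne h, xx, xx]
    simp only [h, if_false]

theorem xx_self {n : ℕ} (x₀ : Fin n → ℂ) (j : Fin n) (z : Fin n → ℂ) (t : ℂ) : xx x₀ j z t j = t := by
  rw [xx, if_neg (lt_irrefl _), if_pos rfl]

/-- the one variable theorem in a box -/
theorem LV_box (g : ℕ) [ProperSpace P₀] {n : ℕ} {κ : Fin n → Type} [∀ j, Fintype (κ j)] [∀ j, DecidableEq (κ j)]
    {U : Set (P₀ × (Fin n → ℂ))} (hU : IsOpen U) {u : ∀ j, κ j → P₀ → (Fin n → ℂ) → ℂ}
    {I : ∀ j, List (κ j) → P₀ → (Fin n → ℂ) → ℂ} (hF : FamP κ U u I) (s₀ : P₀) (x₀ : Fin n → ℂ) (r : ℝ)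
    (hr : ∀ (s : P₀) (x : Fin n → ℂ), dist s s₀ ≤ r → (∀ i, dist (x i) (x₀ i) ≤ r) → (s, x) ∈ U) (hr0 : 0 ≤ r)
    (W : ℕ) (j : Fin n) :
    LV g (fun i => Metric.closedBall (x₀ i) r) j (fun (s : Metric.closedBall s₀ r) x (w : Wd (κ j) W) =>
      I j w.1 s.1 fun i => if i < j then x₀ i else x i) := by
  classical
  set U' : Set ((P₀ × (Fin n → ℂ)) × ℂ) := {q | (q.1.1, xx x₀ j q.1.2 q.2) ∈ U} with hU'
  have hU'o : IsOpen U' := hU.preimage (xx_cont x₀ j)
  set L' : Set ((P₀ × (Fin n → ℂ)) × ℂ) :=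
    (Metric.closedBall s₀ r ×ˢ (Set.univ.pi fun i => Metric.closedBall (x₀ i) r)) ×ˢ Metric.closedBall (x₀ j) r with hL'
  have hL'c : IsCompact L' := ((isCompact_closedBall _ _).prod (isCompact_univ_pi fun i => isCompact_closedBall _ _)).prod
    (isCompact_closedBall _ _)
  have hL'U : L' ⊆ U' := by
    rintro ⟨⟨s, z⟩, t⟩ ⟨⟨hs, hz⟩, ht⟩
    refine hr _ _ hs fun i => ?_
    show dist (xx x₀ j z t i) (x₀ i) ≤ r
    unfold xx
    split_ifs with h1 h2
    · rw [dist_self]; exact hr0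
    · rw [h2]; exact ht
    · exact hz i (Set.mem_univ _)
  have hI' : IterP U' (fun i (q : P₀ × (Fin n → ℂ)) t => u j i q.1 (xx x₀ j q.2 t))
      (fun w q t => I j w q.1 (xx x₀ j q.2 t)) := by
    refine ⟨fun x hx => hF.nil j _ hx, fun i w x hx => ?_, fun w => ?_, fun x hx => ?_⟩
    · have h1 := hF.cons j i w _ hx
      simp only [xx_update, xx_self] at h1
      exact h1
    · exact (hF.cont j w).comp (xx_cont x₀ j).continuousOn fun x hx => hx
    · have h1 := hF.good j _ hx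
      simp only [xx_update, xx_self] at h1
      exact h1
  have hlin := linP_iter g hU'o hI' hL'c hL'U W
  intro h _ _ A ε hε
  obtain ⟨B, C, T2, hC, hT2, H⟩ := hlin h A ε hε
  refine ⟨B, C, T2, hC, hT2, fun T hT R hR ξ s z hz Y hY => ?_⟩
  refine H T hT R hR ξ (s.1, fun i => if j < i then z i else x₀ i) Y fun y hy => ?_
  obtain ⟨h1, h2, h3⟩ := hY y hy
  refine ⟨⟨⟨s.2, fun i _ => ?_⟩, h1⟩, h2, ?_⟩
  · show (if j < i then z i else x₀ i) ∈ Metric.closedBall (x₀ i) r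
    split_ifs with hij
    · exact hz i hij
    · exact Metric.mem_closedBall_self hr0
  · have h4 : (fun i => if i < j then x₀ i else Function.update z j y i) =
        xx x₀ j (fun i => if j < i then z i else x₀ i) y := by
      funext i
      unfold xx
      rcases lt_trichotomy i j with hij | hij | hij
      · rw [if_pos hij, if_pos hij]
      · subst hij
        rw [if_neg (lt_irrefl _), if_neg (lt_irrefl _), if_pos rfl, Function.update_self]
      · rw [if_neg hij.not_gt, if_neg hij.not_gt, if_neg hij.ne', Function.update_of_ne hij.ne']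
        show z i = if j < i then z i else x₀ i
        rw [if_pos hij]
    have h5 : RelR R ξ (fun w : Wd (κ j) W => I j w.1 s.1 fun i => if i < j then x₀ i else Function.update z j y i)
      (T ^ A) (T ^ (-B)) := h3
    rw [h4] at h5
    exact h5

/-- **Main theorem** in several variables -/
theorem main_multi [ProperSpace P₀] {n : ℕ} {κ : Fin n → Type} [∀ j, Fintype (κ j)] [∀ j, DecidableEq (κ j)]
    {U : Set (P₀ × (Fin n → ℂ))} (hU : IsOpen U) {u : ∀ j, κ j → P₀ → (Fin n → ℂ) → ℂ}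
    {I : ∀ j, List (κ j) → P₀ → (Fin n → ℂ) → ℂ} (hF : FamP κ U u I) {L : Set (P₀ × (Fin n → ℂ))}
    (hL : IsCompact L) (hLU : L ⊆ U) (Q : Set ℂ) (hQ : ∀ q ∈ L, ∀ i, q.2 i ∈ Q) (h : Type) [Fintype h] [DecidableEq h]
    (m W : ℕ) (A ε : ℝ) (hε : 0 < ε) :
    ∃ B C T₀ : ℝ, 0 ≤ C ∧ 2 ≤ T₀ ∧ ∀ (F : Type) [Field F] [NumberField F], Module.finrank ℚ F ≤ m →
      ∀ (io : F →+* ℂ) (ξ : h → ℂ) (s : P₀) (T : ℝ), T₀ ≤ T → ∀ E : Set (Fin n → F),
      (∀ t ∈ E, (∀ j, HtLe F T (t j)) ∧ (s, fun j => io (t j)) ∈ L ∧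
        RelK F io ξ (fun e : (∀ j, Wd (κ j) W) => ∏ j, I j (e j).1 s (fun i => io (t i))) (T ^ A) (T ^ (-B))) →
      E.Finite ∧ (E.ncard : ℝ) ≤ C * T ^ ε * (({x : F | HtLe F T x ∧ io x ∈ Q}.ncard : ℝ)) ^ (n - 1) := by
  classical
  -- the local theorem
  have hloc : ∀ q₀ ∈ L, ∃ V ∈ 𝓝 q₀, ∃ B C T₀ : ℝ, 0 ≤ B ∧ 0 ≤ C ∧ 2 ≤ T₀ ∧ ∀ (F : Type) [Field F] [NumberField F],
      Module.finrank ℚ F ≤ m → ∀ (io : F →+* ℂ) (ξ : h → ℂ) (s : P₀) (T : ℝ), T₀ ≤ T → ∀ E : Set (Fin n → F),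
      (∀ t ∈ E, (∀ j, HtLe F T (t j)) ∧ (s, fun j => io (t j)) ∈ V ∩ L ∧
        RelK F io ξ (fun e : (∀ j, Wd (κ j) W) => ∏ j, I j (e j).1 s (fun i => io (t i))) (T ^ A) (T ^ (-B))) →
      E.Finite ∧ (E.ncard : ℝ) ≤ C * T ^ ε * (({x : F | HtLe F T x ∧ io x ∈ Q}.ncard : ℝ)) ^ (n - 1) := by
    rintro ⟨s₀, x₀⟩ hq₀
    obtain ⟨ρ, hρ, hball⟩ := Metric.isOpen_iff.1 hU (s₀, x₀) (hLU hq₀)
    set r : ℝ := ρ / 2 with hr
    have hr0 : 0 < r := by positivity
    have hbox : ∀ (s : P₀) (x : Fin n → ℂ), dist s s₀ ≤ r → (∀ i, dist (x i) (x₀ i) ≤ r) → (s, x) ∈ U := by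
      intro s x hs hx
      refine hball ?_
      rw [Metric.mem_ball, Prod.dist_eq, max_lt_iff]
      refine ⟨lt_of_le_of_lt hs (by linarith), ?_⟩
      rw [dist_pi_lt_iff hρ]
      intro i
      exact lt_of_le_of_lt (hx i) (by linarith)
    obtain ⟨B, C, T₀, hB, hC, hT₀, H⟩ := multiNF m n (S := Metric.closedBall s₀ r)
      (fun i => Metric.closedBall (x₀ i) r) (fun j => Wd (κ j) W)
      (fun j s x w => I j w.1 s.1 fun i => if i < j then x₀ i else x i) (by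
        intro j s x x' hxx
        have h1 : (fun i => if i < j then x₀ i else x i) = fun i => if i < j then x₀ i else x' i := by
          funext i
          split_ifs with hij
          · rfl
          · exact hxx i (not_lt.1 hij)
        rw [h1]) (fun g j => LV_box g hU hF s₀ x₀ r hbox hr0.le W j) Q h A ε hε
    refine ⟨Metric.closedBall (s₀, x₀) r, Metric.closedBall_mem_nhds _ hr0, B, C, T₀, hB, hC, hT₀, ?_⟩
    intro F _ _ hm io ξ s T hT E hE
    rcases E.eq_empty_or_nonempty with he | ⟨t₁, ht₁⟩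
    · rw [he]
      refine ⟨Set.finite_empty, ?_⟩
      rw [Set.ncard_empty, Nat.cast_zero]
      have : 0 ≤ T ^ ε := Real.rpow_nonneg (by linarith) _
      positivity
    have hdist : ∀ t ∈ E, dist s s₀ ≤ r ∧ ∀ i, dist (io (t i)) (x₀ i) ≤ r := by
      intro t ht
      have h1 := (hE t ht).2.1.1
      rw [Metric.mem_closedBall, Prod.dist_eq, max_le_iff] at h1
      refine ⟨h1.1, fun i => ?_⟩
      exact (dist_le_pi_dist (fun j => io (t j)) x₀ i).trans h1.2
    refine H F hm io ξ ⟨s, (hdist t₁ ht₁).1⟩ T hT E fun t ht => ?_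
    obtain ⟨h1, h2, h3⟩ := hE t ht
    refine ⟨fun j => ⟨h1 j, (hdist t ht).2 j, hQ _ h2.2 j⟩, ?_⟩
    have h4 : (fun e : (∀ j, Wd (κ j) W) => ∏ j, I j (e j).1 s (fun i => io (t i))) =
        fun e : (∀ j, Wd (κ j) W) => ∏ j, I j (e j).1 s fun i => if i < j then x₀ i else io (t i) := by
      funext e
      refine Finset.prod_congr rfl fun j _ => ?_
      refine hF.dep j _ s _ _ (hLU h2.2) (hbox s _ (hdist t ht).1 fun i => ?_) fun i hi => ?_
      · show dist (if i < j then x₀ i else io (t i)) (x₀ i) ≤ r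
        split_ifs
        · rw [dist_self]; exact hr0.le
        · exact (hdist t ht).2 i
      · show io (t i) = if i < j then x₀ i else io (t i)
        rw [if_neg (not_lt.2 hi)]
    rw [h4] at h3
    exact h3
  -- gluing
  choose! V hV Bf Cf Tf hBf hCf hTf Hf using hloc
  obtain ⟨FF, hFF, hcov⟩ := hL.elim_nhds_subcover V hV
  refine ⟨∑ q ∈ FF, Bf q, ∑ q ∈ FF, Cf q, 2 + ∑ q ∈ FF, Tf q, ?_, ?_, ?_⟩
  · exact Finset.sum_nonneg fun q hq => hCf q (hFF q hq)
  · have : 0 ≤ ∑ q ∈ FF, Tf q := Finset.sum_nonneg fun q hq => by linarith [hTf q (hFF q hq)]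
    linarith
  intro F _ _ hm io ξ s T hT E hE
  have hT0 : ∀ q ∈ FF, 0 ≤ Tf q := fun q hq => by linarith [hTf q (hFF q hq)]
  have hTq : ∀ q ∈ FF, Tf q ≤ T := fun q hq => by
    have h1 := Finset.single_le_sum (f := Tf) hT0 hq
    linarith
  have hBq : ∀ q ∈ FF, Bf q ≤ ∑ q ∈ FF, Bf q := fun q hq =>
    Finset.single_le_sum (f := Bf) (fun q hq => hBf q (hFF q hq)) hq
  have hT1 : 1 ≤ T := by
    have : 0 ≤ ∑ q ∈ FF, Tf q := Finset.sum_nonneg hT0
    linarith
  have hEc : ∀ q ∈ FF, {t ∈ E | (s, fun j => io (t j)) ∈ V q}.Finite ∧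
      (({t ∈ E | (s, fun j => io (t j)) ∈ V q}.ncard : ℕ) : ℝ) ≤
        Cf q * T ^ ε * (({x : F | HtLe F T x ∧ io x ∈ Q}.ncard : ℝ)) ^ (n - 1) := by
    intro q hq
    refine Hf q (hFF q hq) F hm io ξ s T (hTq q hq) _ fun t ht => ?_
    obtain ⟨h1, h2, c, h3, l₀, h4, h5⟩ := hE t ht.1
    refine ⟨h1, ⟨ht.2, h2⟩, c, h3, l₀, h4, h5.trans ?_⟩
    refine mul_le_mul_of_nonneg_right ?_ (norm_nonneg _)
    exact Real.rpow_le_rpow_of_exponent_le hT1 (neg_le_neg (hBq q hq))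
  have hsub : E ⊆ ⋃ q ∈ FF, {t ∈ E | (s, fun j => io (t j)) ∈ V q} := by
    intro t ht
    obtain ⟨q, hq, hqV⟩ := Set.mem_iUnion₂.1 (hcov (hE t ht).2.1)
    exact Set.mem_iUnion₂.2 ⟨q, hq, ht, hqV⟩
  have hfin : (⋃ q ∈ FF, {t ∈ E | (s, fun j => io (t j)) ∈ V q}).Finite :=
    Set.Finite.biUnion (Finset.finite_toSet _) fun q hq => (hEc q hq).1
  refine ⟨hfin.subset hsub, ?_⟩
  have hcard : (E.ncard : ℝ) ≤ ∑ q ∈ FF, (({t ∈ E | (s, fun j => io (t j)) ∈ V q}.ncard : ℕ) : ℝ) := by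
    have h1 := Set.ncard_le_ncard hsub hfin
    have h2 : (⋃ q ∈ FF, {t ∈ E | (s, fun j => io (t j)) ∈ V q}).ncard ≤
        ∑ q ∈ FF, ({t ∈ E | (s, fun j => io (t j)) ∈ V q}).ncard := Finset.set_ncard_biUnion_le FF _
    exact_mod_cast h1.trans h2
  refine hcard.trans ?_
  rw [Finset.sum_mul, Finset.sum_mul]
  exact Finset.sum_le_sum fun q hq => (hEc q hq).2

end Pool.Agent.Y900.PV
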