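import Pool.Agent.Y124.ChartsC

/-!
# Charts for families of functions which depend continuously on parameters
-/

set_option autoImplicit false

open Filter Topology Set

namespace Pool.Agent.Y900.PV

open Pool.Agent.Y124
open Pool.Agent.Y120 (Charts mv yv)

variable {P : Type} [PseudoMetricSpace P]

/-- jointly continuous near the point and analytic in the second variable -/
def JA (W : P → ℂ → ℂ) (x : P × ℂ) : Prop :=
  ∀ᶠ y in 𝓝 x, ContinuousAt (fun z : P × ℂ => W z.1 z.2) y ∧ AnalyticAt ℂ (W y.1) y.2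

theorem JA.cont {W : P → ℂ → ℂ} {x : P × ℂ} (h : JA W x) : ContinuousAt (fun z : P × ℂ => W z.1 z.2) x :=
  h.self_of_nhds.1

theorem JA.an {W : P → ℂ → ℂ} {x : P × ℂ} (h : JA W x) : AnalyticAt ℂ (W x.1) x.2 := h.self_of_nhds.2

theorem JA.ev {W : P → ℂ → ℂ} {x : P × ℂ} (h : JA W x) : ∀ᶠ y in 𝓝 x, JA W y := by
  exact h.eventually_nhds

theorem isOpen_JA (W : P → ℂ → ℂ) : IsOpen {x | JA W x} := by
  rw [isOpen_iff_mem_nhds]
  intro x hx
  exact JA.ev hx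

theorem JA.add {W V : P → ℂ → ℂ} {x : P × ℂ} (h : JA W x) (g : JA V x) : JA (fun s t => W s t + V s t) x := by
  filter_upwards [h, g] with y hy hy'
  exact ⟨hy.1.add hy'.1, hy.2.add hy'.2⟩

theorem JA.mul {W V : P → ℂ → ℂ} {x : P × ℂ} (h : JA W x) (g : JA V x) : JA (fun s t => W s t * V s t) x := by
  filter_upwards [h, g] with y hy hy'
  exact ⟨hy.1.mul hy'.1, hy.2.mul hy'.2⟩

theorem JA.const (c : ℂ) (x : P × ℂ) : JA (fun (_ : P) (_ : ℂ) => c) x :=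
  Eventually.of_forall fun _ => ⟨continuousAt_const, analyticAt_const⟩

theorem JA.snd (x : P × ℂ) : JA (fun (_ : P) (t : ℂ) => t) x :=
  Eventually.of_forall fun _ => ⟨continuousAt_snd, analyticAt_id⟩

theorem JA.pow {W : P → ℂ → ℂ} {x : P × ℂ} (h : JA W x) (n : ℕ) : JA (fun s t => W s t ^ n) x := by
  filter_upwards [h] with y hy
  exact ⟨hy.1.pow n, hy.2.pow n⟩

theorem JA.prod {ι : Type} (S : Finset ι) {W : ι → P → ℂ → ℂ} {x : P × ℂ} (h : ∀ i, JA (W i) x) :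
    JA (fun s t => ∏ i ∈ S, W i s t) x := by
  classical
  induction S using Finset.induction_on with
  | empty =>
    simp only [Finset.prod_empty]
    exact JA.const 1 x
  | insert i S hi ih =>
    simp only [Finset.prod_insert hi]
    exact (h i).mul ih

theorem JA.sum {ι : Type} (S : Finset ι) {W : ι → P → ℂ → ℂ} {x : P × ℂ} (h : ∀ i, JA (W i) x) :
    JA (fun s t => ∑ i ∈ S, W i s t) x := by
  classical
  induction S using Finset.induction_on with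
  | empty =>
    simp only [Finset.sum_empty]
    exact JA.const 0 x
  | insert i S hi ih =>
    simp only [Finset.sum_insert hi]
    exact (h i).add ih

/-- joint continuity of the Taylor coefficients -/
theorem tc_joint {W : P → ℂ → ℂ} {x : P × ℂ} (h : JA W x) (p : ℕ) :
    ContinuousAt (fun z : P × ℂ => tc (W z.1) z.2 p) x := by
  obtain ⟨s₀, t₀⟩ := x
  -- a radius
  obtain ⟨ρ, hρ, hball⟩ := Metric.eventually_nhds_iff_ball.1 h
  set r : ℝ := ρ / 3 with hr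
  have hr0 : 0 < r := by positivity
  have hin : ∀ s t z, dist s s₀ < r → dist t t₀ < r → ‖z‖ ≤ r → ((s, t + z) : P × ℂ) ∈ Metric.ball (s₀, t₀) ρ := by
    intro s t z hs ht hz
    rw [Metric.mem_ball, Prod.dist_eq, max_lt_iff]
    refine ⟨by linarith, ?_⟩
    have h1 : dist (t + z) t₀ ≤ ‖z‖ + dist t t₀ := by
      rw [dist_eq_norm, dist_eq_norm]
      calc ‖t + z - t₀‖ = ‖z + (t - t₀)‖ := by ring_nf
        _ ≤ _ := norm_add_le _ _
    show dist (t + z) t₀ < ρ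
    linarith
  -- uniform convergence on the circle
  have hunif : ∀ ε : ℝ, 0 < ε → ∀ᶠ y : P × ℂ in 𝓝 (s₀, t₀), ∀ z ∈ Metric.sphere (0 : ℂ) r,
      ‖W y.1 (y.2 + z) - W s₀ (t₀ + z)‖ < ε := by
    intro ε hε
    refine (isCompact_sphere (0 : ℂ) r).eventually_forall_of_forall_eventually ?_
    intro z hz
    have hzr : ‖z‖ ≤ r := by
      rw [mem_sphere_zero_iff_norm] at hz
      exact hz.le
    have hmem : ((s₀, t₀ + z) : P × ℂ) ∈ Metric.ball (s₀, t₀) ρ := hin s₀ t₀ z (by simpa using hr0) (by simpa using hr0) hzr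
    have hc := (hball _ hmem).1
    have h1 : Tendsto (fun q : (P × ℂ) × ℂ => W q.1.1 (q.1.2 + q.2)) (𝓝 ((s₀, t₀), z)) (𝓝 (W s₀ (t₀ + z))) := by
      have h2 : Tendsto (fun q : (P × ℂ) × ℂ => ((q.1.1, q.1.2 + q.2) : P × ℂ)) (𝓝 ((s₀, t₀), z))
          (𝓝 (s₀, t₀ + z)) := by
        have : Continuous fun q : (P × ℂ) × ℂ => ((q.1.1, q.1.2 + q.2) : P × ℂ) := by fun_prop
        exact this.tendsto _
      exact hc.tendsto.comp h2
    have h3 : Tendsto (fun q : (P × ℂ) × ℂ => W s₀ (t₀ + q.2)) (𝓝 ((s₀, t₀), z)) (𝓝 (W s₀ (t₀ + z))) := by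
      have h2 : Tendsto (fun q : (P × ℂ) × ℂ => ((s₀, t₀ + q.2) : P × ℂ)) (𝓝 ((s₀, t₀), z))
          (𝓝 (s₀, t₀ + z)) := by
        have : Continuous fun q : (P × ℂ) × ℂ => ((s₀, t₀ + q.2) : P × ℂ) := by fun_prop
        exact this.tendsto _
      exact hc.tendsto.comp h2
    have h4 := (h1.sub h3).norm
    rw [sub_self, norm_zero] at h4
    exact h4.eventually_lt_const hε
  -- the Cauchy estimate
  rw [Metric.continuousAt_iff']
  intro ε hε
  have hrp : 0 < r ^ p := pow_pos hr0 p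
  filter_upwards [hunif (ε / 2 * r ^ p) (by positivity), Metric.ball_mem_nhds ((s₀, t₀) : P × ℂ) hr0] with y hy hyr
  rw [Metric.mem_ball, Prod.dist_eq, max_lt_iff] at hyr
  have hshift : ∀ (s : P) (t : ℂ), tc (W s) t p = tc (fun z => W s (t + z)) 0 p := by
    intro s t
    rw [tc, tc]
    congr 1
    rw [iteratedDeriv_comp_const_add p (W s) t]
    simp
  have hAn : ∀ (s : P) (t : ℂ), dist s s₀ < r → dist t t₀ < r → ∀ z ∈ Metric.closedBall (0 : ℂ) r,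
      AnalyticAt ℂ (fun z => W s (t + z)) z := by
    intro s t hs ht z hz
    rw [mem_closedBall_zero_iff] at hz
    have h1 := (hball _ (hin s t z hs ht hz)).2
    have h2 : AnalyticAt ℂ (fun z : ℂ => t + z) z := analyticAt_const.add analyticAt_id
    exact AnalyticAt.comp (g := W s) (f := fun z : ℂ => t + z) h1 h2
  have h1 : AnalyticAt ℂ (fun z => W y.1 (y.2 + z)) 0 := hAn y.1 y.2 hyr.1 hyr.2 0 (by simpa using hr0.le)
  have h2 : AnalyticAt ℂ (fun z => W s₀ (t₀ + z)) 0 := hAn s₀ t₀ (by simpa using hr0) (by simpa using hr0) 0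
    (by simpa using hr0.le)
  have hsub : tc (W y.1) y.2 p - tc (W s₀) t₀ p = tc (fun z => W y.1 (y.2 + z) - W s₀ (t₀ + z)) 0 p := by
    rw [hshift, hshift, tc, tc, tc, ← sub_div]
    congr 1
    have h3 := iteratedDeriv_fun_sub (n := p) (h1.contDiffAt (n := p)) (h2.contDiffAt (n := p))
    rw [h3]
  rw [dist_eq_norm, hsub, tc, norm_div]
  have hd : DiffContOnCl ℂ (fun z => W y.1 (y.2 + z) - W s₀ (t₀ + z)) (Metric.ball 0 r) := by
    refine DifferentiableOn.diffContOnCl ?_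
    intro z hz
    have hz' := Metric.closure_ball_subset_closedBall hz
    exact ((hAn y.1 y.2 hyr.1 hyr.2 z hz').sub (hAn s₀ t₀ (by simpa using hr0) (by simpa using hr0) z
      hz')).differentiableAt.differentiableWithinAt
  have h4 := Complex.norm_iteratedDeriv_le_of_forall_mem_sphere_norm_le p hr0 hd (C := ε / 2 * r ^ p)
    (fun z hz => (hy z hz).le)
  have hf : (0 : ℝ) < p.factorial := by exact_mod_cast p.factorial_pos
  rw [Complex.norm_natCast, div_lt_iff₀ hf]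
  refine lt_of_le_of_lt h4 ?_
  have h5 : (p.factorial : ℝ) * (ε / 2 * r ^ p) / r ^ p = ε / 2 * p.factorial := by field_simp
  rw [h5]
  nlinarith

variable {σ : Type} [Fintype σ]

/-- the monomial functions -/
theorem WmC_JA (f : σ → P → ℂ → ℂ) {x : P × ℂ} (h : ∀ i, JA (f i) x) (j : Option σ →₀ ℕ) :
    JA (fun s => WmC (fun i => f i s) j) x := by
  have h1 := ((JA.snd x).pow (j none)).mul (JA.prod Finset.univ fun i => (h i).pow (j (some i)))
  exact h1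

/-- a uniform radius -/
theorem exists_radiusP (f : σ → P → ℂ → ℂ) {L : Set (P × ℂ)} (hL : IsCompact L) (h : ∀ i, ∀ x ∈ L, JA (f i) x) :
    ∃ δ : ℝ, 0 < δ ∧ ∀ x ∈ Metric.cthickening δ L, ∀ i, JA (f i) x := by
  have hU : IsOpen {x : P × ℂ | ∀ i, JA (f i) x} := by
    have h1 : {x : P × ℂ | ∀ i, JA (f i) x} = ⋂ i, {x | JA (f i) x} := by
      ext t
      simp
    rw [h1]
    exact isOpen_iInter_of_finite fun i => isOpen_JA (f i)
  obtain ⟨δ, hδ, h⟩ := hL.exists_cthickening_subset_open hU (fun t ht i => h i t ht)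
  exact ⟨δ, hδ, fun t ht i => h ht i⟩

theorem ball_sub {L : Set (P × ℂ)} {δ : ℝ} {θ : P × ℂ} (hθ : θ ∈ L) {t : ℂ} (ht : t ∈ Metric.closedBall θ.2 δ) :
    (θ.1, t) ∈ Metric.cthickening δ L := by
  refine Metric.mem_cthickening_of_dist_le (θ.1, t) θ δ L hθ ?_
  rw [Prod.dist_eq, max_le_iff]
  have h1 : dist t θ.2 ≤ δ := ht
  exact ⟨by rw [dist_self]; exact dist_nonneg.trans h1, h1⟩

/-- the part of the parameter space reached by the balls is compact -/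
theorem taylor_compactP {W : P → ℂ → ℂ} {L : Set (P × ℂ)} (hL : IsCompact L) {δ : ℝ} (hδ : 0 < δ)
    (hW : ∀ x ∈ Metric.cthickening δ L, JA W x) : ∃ M : ℝ, 0 ≤ M ∧
    (∀ θ ∈ L, ∀ p, ‖tc (W θ.1) θ.2 p‖ ≤ M * (δ⁻¹) ^ p) ∧
    ∀ θ ∈ L, ∀ t ∈ Metric.closedBall θ.2 (δ / 2), ∀ N : ℕ,
      ‖W θ.1 t - ∑ p ∈ Finset.range N, tc (W θ.1) θ.2 p * (t - θ.2) ^ p‖ ≤ 2 * M * (δ⁻¹) ^ N * ‖t - θ.2‖ ^ N := by
  -- the compact set
  set φ : (P × ℂ) × ℂ → P × ℂ := fun q => (q.1.1, q.1.2 + q.2) with hφ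
  have hφc : Continuous φ := by fun_prop
  set L' : Set (P × ℂ) := φ '' (L ×ˢ Metric.closedBall (0 : ℂ) δ) with hL'
  have hL'c : IsCompact L' := (hL.prod (isCompact_closedBall _ _)).image hφc
  have hmem : ∀ θ ∈ L, ∀ t ∈ Metric.closedBall θ.2 δ, (θ.1, t) ∈ L' := by
    intro θ hθ t ht
    refine ⟨(θ, t - θ.2), ⟨hθ, ?_⟩, ?_⟩
    · rw [mem_closedBall_zero_iff, ← dist_eq_norm]
      exact ht
    · simp [hφ]
  have hL'sub : ∀ x ∈ L', JA W x := by
    rintro _ ⟨⟨θ, z⟩, ⟨hθ, hz⟩, rfl⟩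
    refine hW _ (ball_sub hθ ?_)
    rw [Metric.mem_closedBall, dist_eq_norm]
    rw [mem_closedBall_zero_iff] at hz
    show ‖θ.2 + z - θ.2‖ ≤ δ
    rwa [add_sub_cancel_left]
  obtain ⟨M, hM⟩ := hL'c.exists_bound_of_continuousOn (f := fun z : P × ℂ => W z.1 z.2)
    (fun x hx => (hL'sub x hx).cont.continuousWithinAt)
  have hM0 : 0 ≤ max M 0 := le_max_right _ _
  have hcoef : ∀ θ ∈ L, ∀ p, ‖tc (W θ.1) θ.2 p‖ ≤ max M 0 * (δ⁻¹) ^ p := by
    intro θ hθ p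
    have hd : DiffContOnCl ℂ (W θ.1) (Metric.ball θ.2 δ) := by
      refine DifferentiableOn.diffContOnCl ?_
      intro t ht
      exact (hL'sub _ (hmem θ hθ t (Metric.closure_ball_subset_closedBall ht))).an.differentiableAt.differentiableWithinAt
    have h1 := Complex.norm_iteratedDeriv_le_of_forall_mem_sphere_norm_le p hδ hd (C := max M 0) (fun z hz =>
      (hM _ (hmem θ hθ z (Metric.sphere_subset_closedBall hz))).trans (le_max_left _ _))
    have hf : (0 : ℝ) < p.factorial := by exact_mod_cast p.factorial_pos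
    rw [tc, norm_div, div_le_iff₀ (by simpa using hf)]
    refine h1.trans (le_of_eq ?_)
    simp only [Complex.norm_natCast, inv_pow]
    rw [div_eq_mul_inv]
    ring
  refine ⟨max M 0, hM0, hcoef, ?_⟩
  intro θ hθ t ht N
  have hdiff : DifferentiableOn ℂ (W θ.1) (Metric.ball θ.2 δ) := fun z hz =>
    (hL'sub _ (hmem θ hθ z (Metric.ball_subset_closedBall hz))).an.differentiableAt.differentiableWithinAt
  have htb : t ∈ Metric.ball θ.2 δ := Metric.closedBall_subset_ball (by linarith) ht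
  have h1 := Complex.hasSum_taylorSeries_on_ball hdiff htb
  have h2 : (fun n : ℕ => (n.factorial : ℂ)⁻¹ • (t - θ.2) ^ n • iteratedDeriv n (W θ.1) θ.2) =
      fun n => tc (W θ.1) θ.2 n * (t - θ.2) ^ n := by
    funext n
    rw [tc, smul_eq_mul, smul_eq_mul, div_eq_mul_inv]
    ring
  rw [h2] at h1
  have h3 := (hasSum_nat_add_iff' N).2 h1
  set ρ : ℝ := ‖t - θ.2‖ with hρ
  have hρ2 : ρ ≤ δ / 2 := by
    have := ht
    rw [Metric.mem_closedBall, dist_eq_norm] at this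
    exact this
  have hρ0 : 0 ≤ ρ := norm_nonneg _
  set q : ℝ := δ⁻¹ * ρ with hq
  have hq0 : 0 ≤ q := by positivity
  have hq2 : q ≤ 1 / 2 := by
    rw [hq, inv_mul_le_iff₀ hδ]
    linarith
  have h4 : HasSum (fun n : ℕ => max M 0 * q ^ N * q ^ n) (max M 0 * q ^ N * (1 - q)⁻¹) :=
    (hasSum_geometric_of_lt_one hq0 (by linarith)).mul_left _
  have h5 : ‖W θ.1 t - ∑ p ∈ Finset.range N, tc (W θ.1) θ.2 p * (t - θ.2) ^ p‖ ≤ max M 0 * q ^ N * (1 - q)⁻¹ := by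
    refine le_trans (le_of_eq ?_) (tsum_of_norm_bounded h4
      (f := fun n => tc (W θ.1) θ.2 (n + N) * (t - θ.2) ^ (n + N)) ?_)
    · rw [h3.tsum_eq]
    · intro n
      rw [norm_mul, norm_pow]
      calc ‖tc (W θ.1) θ.2 (n + N)‖ * ‖t - θ.2‖ ^ (n + N) ≤ (max M 0 * (δ⁻¹) ^ (n + N)) * ρ ^ (n + N) :=
            mul_le_mul_of_nonneg_right (hcoef θ hθ _) (by positivity)
        _ = max M 0 * q ^ N * q ^ n := by rw [hq, mul_pow, mul_pow, pow_add, pow_add]; ring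
  refine h5.trans ?_
  have h6 : (1 - q)⁻¹ ≤ 2 := by
    rw [inv_le_comm₀ (by linarith) (by norm_num)]
    linarith
  calc max M 0 * q ^ N * (1 - q)⁻¹ ≤ max M 0 * q ^ N * 2 := mul_le_mul_of_nonneg_left h6 (by positivity)
    _ = 2 * max M 0 * (δ⁻¹) ^ N * ρ ^ N := by rw [hq, mul_pow]; ring

/-- uniform nondegeneracy -/
theorem nd_compactP (f : σ → P → ℂ → ℂ) {L : Set (P × ℂ)} (hL : IsCompact L) (h : ∀ i, ∀ x ∈ L, JA (f i) x)
    (hind : ∀ x ∈ L, LocInd (fun i => f i x.1) x.2) (𝓜 : Finset (Option σ →₀ ℕ)) :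
    ∃ N₀ : ℕ, ∃ c₀ : ℝ, 0 < c₀ ∧ ∀ θ ∈ L, ∀ g : (Option σ →₀ ℕ) → ℂ,
      ∃ p ≤ N₀, ∀ j ∈ 𝓜, c₀ * ‖g j‖ ≤ ‖∑ j' ∈ 𝓜, g j' * tc (WmC (fun i => f i θ.1) j') θ.2 p‖ := by
  classical
  by_contra hcon
  push Not at hcon
  have h1 : ∀ n : ℕ, ∃ θ ∈ L, ∃ x : 𝓜 → ℂ, ‖x‖ = 1 ∧ ∀ p ≤ n,
      ‖∑ j' : 𝓜, x j' * tc (WmC (fun i => f i θ.1) j') θ.2 p‖ ≤ ((n : ℝ) + 1)⁻¹ := by
    intro n
    obtain ⟨θ, hθ, g, hg⟩ := hcon n (((n : ℝ) + 1)⁻¹) (by positivity)
    set y : 𝓜 → ℂ := fun j => g j with hy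
    have hy0 : 0 < ‖y‖ := by
      rw [norm_pos_iff]
      intro h0
      obtain ⟨j, hj, hlt⟩ := hg 0 (Nat.zero_le _)
      have : g j = 0 := congrFun h0 ⟨j, hj⟩
      rw [this, norm_zero, mul_zero] at hlt
      exact absurd hlt (not_lt.2 (norm_nonneg _))
    refine ⟨θ, hθ, (‖y‖⁻¹ : ℝ) • y, ?_, ?_⟩
    · rw [norm_smul, Real.norm_eq_abs, abs_of_pos (inv_pos.2 hy0), inv_mul_cancel₀ hy0.ne']
    · intro p hp
      obtain ⟨j, hj, hlt⟩ := hg p hp
      have h2 : ∑ j' : 𝓜, ((‖y‖⁻¹ : ℝ) • y) j' * tc (WmC (fun i => f i θ.1) j') θ.2 p =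
          ((‖y‖⁻¹ : ℝ) : ℂ) * ∑ j' ∈ 𝓜, g j' * tc (WmC (fun i => f i θ.1) j') θ.2 p := by
        rw [← Finset.sum_coe_sort 𝓜 (fun j' => g j' * tc (WmC (fun i => f i θ.1) j') θ.2 p), Finset.mul_sum]
        refine Finset.sum_congr rfl fun j' _ => ?_
        simp only [Pi.smul_apply, Complex.real_smul, hy]
        ring
      rw [h2, norm_mul, Complex.norm_real, Real.norm_eq_abs, abs_of_pos (inv_pos.2 hy0)]
      have h3 : ‖g j‖ ≤ ‖y‖ := norm_le_pi_norm y ⟨j, hj⟩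
      calc ‖y‖⁻¹ * ‖∑ j' ∈ 𝓜, g j' * tc (WmC (fun i => f i θ.1) j') θ.2 p‖ ≤ ‖y‖⁻¹ * (((n : ℝ) + 1)⁻¹ * ‖y‖) := by
            refine mul_le_mul_of_nonneg_left (hlt.le.trans ?_) (inv_pos.2 hy0).le
            exact mul_le_mul_of_nonneg_left h3 (by positivity)
        _ = ((n : ℝ) + 1)⁻¹ := by field_simp
  choose θ hθ x hx1 hxp using h1
  have hcomp : IsCompact (L ×ˢ Metric.sphere (0 : 𝓜 → ℂ) 1) := hL.prod (isCompact_sphere _ _)
  obtain ⟨⟨θs, xs⟩, hmem, φ, hφ, hlim⟩ := hcomp.tendsto_subseq (x := fun n => (θ n, x n))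
    (fun n => ⟨hθ n, by rw [mem_sphere_zero_iff_norm]; exact hx1 n⟩)
  have hθs : θs ∈ L := hmem.1
  have hxs : ‖xs‖ = 1 := by simpa using hmem.2
  have hl1 : Tendsto (fun n => θ (φ n)) atTop (𝓝 θs) := (continuous_fst.tendsto _).comp hlim
  have hl2 : Tendsto (fun n => x (φ n)) atTop (𝓝 xs) := (continuous_snd.tendsto _).comp hlim
  have hzero : ∀ p, ∑ j' : 𝓜, xs j' * tc (WmC (fun i => f i θs.1) j') θs.2 p = 0 := by
    intro p
    have h4 : Tendsto (fun n => ∑ j' : 𝓜, x (φ n) j' * tc (WmC (fun i => f i (θ (φ n)).1) j') (θ (φ n)).2 p) atTop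
        (𝓝 (∑ j' : 𝓜, xs j' * tc (WmC (fun i => f i θs.1) j') θs.2 p)) := by
      refine tendsto_finsetSum _ fun j' _ => ?_
      refine Tendsto.mul ((continuous_apply j').continuousAt.tendsto.comp hl2) ?_
      exact (tc_joint (WmC_JA f (fun i => h i θs hθs) j') p).tendsto.comp hl1
    have h5 : Tendsto (fun n => ∑ j' : 𝓜, x (φ n) j' * tc (WmC (fun i => f i (θ (φ n)).1) j') (θ (φ n)).2 p) atTop
        (𝓝 0) := by
      rw [tendsto_zero_iff_norm_tendsto_zero]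
      have h6 : Tendsto (fun n : ℕ => (((φ n : ℕ) : ℝ) + 1)⁻¹) atTop (𝓝 0) := by
        have h7 : Tendsto (fun n : ℕ => ((n : ℝ) + 1)⁻¹) atTop (𝓝 0) :=
          (tendsto_natCast_atTop_atTop.atTop_add tendsto_const_nhds).inv_tendsto_atTop
        exact h7.comp hφ.tendsto_atTop
      refine squeeze_zero' (Eventually.of_forall fun n => norm_nonneg _) ?_ h6
      filter_upwards [eventually_ge_atTop p] with n hn
      exact hxp (φ n) p (hn.trans (hφ.id_le n))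
    exact tendsto_nhds_unique h4 h5
  have h8 := WmC_indep (fun i => f i θs.1) θs.2 (fun i => (h i θs hθs).an) (hind θs hθs) 𝓜
    (fun j => if h : j ∈ 𝓜 then xs ⟨j, h⟩ else 0) (by
      intro p
      refine Eq.trans ?_ (hzero p)
      rw [← Finset.sum_coe_sort 𝓜 (fun j => (if h : j ∈ 𝓜 then xs ⟨j, h⟩ else 0) * tc (WmC (fun i => f i θs.1) j) θs.2 p)]
      refine Finset.sum_congr rfl fun j _ => ?_
      rw [dif_pos j.2])
  have h9 : xs = 0 := by
    funext j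
    have := h8 j j.2
    rwa [dif_pos j.2] at this
  rw [h9, norm_zero] at hxs
  exact zero_ne_one hxs

/-- the charts -/
noncomputable def chartsP (f : σ → P → ℂ → ℂ) (L : Set (P × ℂ)) (hL : IsCompact L) (h : ∀ i, ∀ x ∈ L, JA (f i) x)
    (hind : ∀ x ∈ L, LocInd (fun i => f i x.1) x.2) (δ : ℝ) (hδ : 0 < δ)
    (hδ' : ∀ x ∈ Metric.cthickening δ L, ∀ i, JA (f i) x) : Charts σ where
  Θ := L
  τ θ := θ.1.2
  dom θ := Metric.closedBall θ.1.2 (δ / 2)
  u θ i t := f i θ.1.1 t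
  a θ j p := tc (WmC (fun i => f i θ.1.1) j) θ.1.2 p
  τb := by
    obtain ⟨M, hM⟩ := (hL.image continuous_snd).isBounded.exists_norm_le
    exact ⟨M, fun θ => hM θ.1.2 ⟨θ.1, θ.2, rfl⟩⟩
  ab := by
    intro j p
    obtain ⟨M, -, h, -⟩ := taylor_compactP hL hδ (fun t ht => WmC_JA f (hδ' t ht) j)
    exact ⟨M * (δ⁻¹) ^ p, fun θ => h θ θ.2 p⟩
  approx := by
    intro j N
    obtain ⟨M, -, -, h⟩ := taylor_compactP hL hδ (fun t ht => WmC_JA f (hδ' t ht) j)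
    refine ⟨2 * M * (δ⁻¹) ^ N, fun θ t ht => ?_⟩
    rw [WmC_mv]
    exact h θ θ.2 t ht N
  nd := by
    intro 𝓜
    obtain ⟨N₀, c₀, hc₀, h⟩ := nd_compactP f hL h hind 𝓜
    exact ⟨N₀, c₀, hc₀, fun θ g => h θ θ.2 g⟩

end Pool.Agent.Y900.PV
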